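import Mathlib
import Pool.Agent.R389.Sol

/-!
# Induction from hyperelementary subgroups at one prime; rational functions on cyclic quotients
-/

set_option autoImplicit false
set_option linter.unusedSectionVars false

namespace Pool.Agent.K4H77.SL

open Pool.Agent.H302R2 Pool.Agent.H302R3 Pool.Agent.H541R3.ART Pool.Agent.W446.AS MulAction
open Pool.Agent.R389

section sol

variable (G : Type) [Group G] [Finite G]

/-- the group generated by permutation characters of `p`-hyperelementary subgroups -/
def SolP (p : ℕ) : AddSubgroup (G → ℂ) :=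
  AddSubgroup.closure {f | ∃ U : Subgroup G, HypP p U ∧ f = ind U (fun _ => 1)}

variable {G}

lemma countP_mem {p : ℕ} {f : G → ℕ} (hf : HypPCount p f) :
    (fun g => (f g : ℂ)) ∈ SolP G p := by
  classical
  obtain ⟨X, _, _, hX, hfX⟩ := hf
  have : Fintype G := Fintype.ofFinite _
  have : Fintype X := Fintype.ofFinite _
  let mk : X → Quotient (orbitRel G X) := Quotient.mk _
  have h1 : (fun g => (f g : ℂ)) = ∑ ω : Quotient (orbitRel G X),
      ind (stabilizer G ω.out) (fun _ => (1 : ℂ)) := by
    funext g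
    rw [Finset.sum_apply]
    have h2 : (f g : ℂ) = ∑ x : X, if g • x = x then (1 : ℂ) else 0 := by
      rw [hfX, ← Finset.sum_filter, Finset.sum_const, nsmul_eq_mul, mul_one,
        Nat.card_eq_fintype_card, Fintype.card_subtype]
    rw [h2, ← Finset.sum_fiberwise_of_maps_to (s := Finset.univ) (t := Finset.univ)
      (g := mk) (fun _ _ => Finset.mem_univ _)]
    refine Finset.sum_congr rfl fun ω _ => ?_
    rw [ind_eq]
    have h3 : ∀ y : G, ext (stabilizer G ω.out) (fun _ => (1 : ℂ)) (y⁻¹ * g * y)
        = (fun x : X => if g • x = x then (1 : ℂ) else 0) (y • ω.out) := by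
      intro y
      have h4 : y⁻¹ * g * y ∈ stabilizer G ω.out ↔ g • y • ω.out = y • ω.out := by
        rw [mem_stabilizer_iff, mul_smul, mul_smul, inv_smul_eq_iff]
      simp only
      by_cases h : y⁻¹ * g * y ∈ stabilizer G ω.out
      · rw [ext_mem _ _ h, if_pos (h4.mp h)]
      · rw [ext_not _ _ h, if_neg (fun h' => h (h4.mpr h'))]
    rw [Finset.sum_congr rfl (fun y _ => h3 y)]
    have hmk : ∀ y : G, mk (y • ω.out) = ω := by
      intro y
      have h5 : mk (y • ω.out) = mk ω.out := Quotient.sound (orbitRel_apply.mpr ⟨y, rfl⟩)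
      rw [h5]; exact Quotient.out_eq ω
    rw [← Finset.sum_fiberwise_of_maps_to (s := (Finset.univ : Finset G))
      (t := Finset.univ.filter (fun x => mk x = ω)) (g := fun y => y • ω.out)
      (fun y _ => Finset.mem_filter.mpr ⟨Finset.mem_univ _, hmk y⟩), Finset.mul_sum]
    refine Finset.sum_congr rfl fun x hx => ?_
    have hx1 : mk x = mk ω.out := by
      rw [(Finset.mem_filter.mp hx).2]; exact (Quotient.out_eq ω).symm
    obtain ⟨z, hz⟩ := orbitRel_apply.mp (Quotient.exact hx1)
    simp only at hz
    rw [Finset.sum_congr rfl (g := fun _ => if g • x = x then (1 : ℂ) else 0)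
      (fun y hy => by rw [(Finset.mem_filter.mp hy).2]), Finset.sum_const, nsmul_eq_mul]
    have hcard : (Finset.univ.filter (fun y : G => y • ω.out = x)).card
        = Nat.card (stabilizer G ω.out) := by
      rw [← Fintype.card_subtype, ← Nat.card_eq_fintype_card]
      refine Nat.card_congr ⟨fun y => ⟨z⁻¹ * y, ?_⟩, fun s => ⟨z * s, ?_⟩, ?_, ?_⟩
      · rw [mem_stabilizer_iff, mul_smul, y.2, ← hz, inv_smul_smul]
      · rw [mul_smul, mem_stabilizer_iff.mp s.2, hz]
      · intro y; apply Subtype.ext; simp
      · intro s; apply Subtype.ext; simp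
    rw [hcard, ← mul_assoc, inv_mul_cancel₀ card_ne, one_mul]
  rw [h1]
  refine sum_mem fun ω _ => AddSubgroup.subset_closure ⟨_, hX ω.out, rfl⟩

/-- integral multiples of the trivial character -/
lemma existsP_const {p : ℕ} (hp : p.Prime) :
    ∃ N : ℤ, ¬ (p : ℤ) ∣ N ∧ N • (fun _ => 1 : G → ℂ) ∈ SolP G p := by
  classical
  have : Fintype G := Fintype.ofFinite _
  obtain ⟨F, hF, hF'⟩ := exists_all_prime_to (G := G) hp
  let Q : Polynomial ℤ := ∏ g : G, (Polynomial.X - Polynomial.C (F g : ℤ))
  refine ⟨Q.coeff 0, ?_, ?_⟩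
  · rw [Polynomial.coeff_zero_eq_eval_zero, Polynomial.eval_prod]
    intro h
    obtain ⟨g, -, hg⟩ := (Prime.dvd_finsetProd_iff (Nat.prime_iff_prime_int.mp hp) _).mp h
    simp only [Polynomial.eval_sub, Polynomial.eval_X, Polynomial.eval_C, zero_sub,
      dvd_neg] at hg
    exact hF' g (by exact_mod_cast hg)
  · have h1 : Q.coeff 0 • (fun _ => 1 : G → ℂ)
        = - ∑ i ∈ Finset.range Q.natDegree, Q.coeff (i + 1) • (fun g => ((F g ^ (i + 1) : ℕ) : ℂ)) := by
      funext x
      have h2 : Q.eval (F x : ℤ) = 0 := by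
        rw [Polynomial.eval_prod]
        exact Finset.prod_eq_zero (Finset.mem_univ x) (by simp)
      rw [Polynomial.eval_eq_sum_range, Finset.sum_range_succ'] at h2
      have h3 : Q.coeff 0 = - ∑ i ∈ Finset.range Q.natDegree, Q.coeff (i + 1) * (F x : ℤ) ^ (i + 1) := by
        rw [pow_zero, mul_one] at h2
        linarith
      simp only [Pi.smul_apply, Pi.neg_apply, Finset.sum_apply, zsmul_eq_mul, mul_one]
      rw [h3]
      push_cast
      rfl
    rw [h1]
    exact neg_mem (sum_mem fun i _ => zsmul_mem (countP_mem (hF.pow i)) _)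

/-- a multiple prime to `p` of a class function in terms of its restrictions to the
`p`-hyperelementary subgroups -/
theorem class_solP {p : ℕ} (hp : p.Prime) {f : G → ℂ} (hf : ∀ g x : G, f (x * g * x⁻¹) = f g) :
    ∃ N : ℤ, ¬ (p : ℤ) ∣ N ∧ N • f ∈ AddSubgroup.closure {u : G → ℂ | ∃ U : Subgroup G, HypP p U ∧
      u = ind U (fun h => f h)} := by
  obtain ⟨N, hN, hN'⟩ := existsP_const (G := G) hp
  refine ⟨N, hN, ?_⟩
  let m : (G → ℂ) →+ (G → ℂ) := AddMonoidHom.mk' (fun u g => u g * f g) (fun a b => by
    funext g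
    change (a g + b g) * f g = a g * f g + b g * f g
    ring)
  have h1 : SolP G p ≤ (AddSubgroup.closure
      {u : G → ℂ | ∃ U : Subgroup G, HypP p U ∧ u = ind U (fun h => f h)}).comap m := by
    rw [SolP, AddSubgroup.closure_le]
    rintro u ⟨U, hU, rfl⟩
    rw [SetLike.mem_coe, AddSubgroup.mem_comap]
    apply AddSubgroup.subset_closure
    refine ⟨U, hU, ?_⟩
    funext g
    change ind U (fun _ => 1) g * f g = _
    rw [← ind_mul U (fun _ => (1 : ℂ)) hf g]
    simp only [one_mul]
  have h2 := h1 hN'
  rw [AddSubgroup.mem_comap, map_zsmul] at h2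
  have h3 : m (fun _ => 1) = f := by
    funext g
    change 1 * f g = f g
    rw [one_mul]
  rwa [h3] at h2

end sol

section cyc

variable {U H : Type} [Group U] [Finite U] [Group H] [Finite H]

open Classical in
/-- the character induced from the trivial character of the preimage of a subgroup of an abelian
quotient -/
lemma ind_comap [IsMulCommutative H] (π : U →* H) (hπ : Function.Surjective π) (B : Subgroup H)
    (u : U) : (Nat.card B : ℂ) * ind (B.comap π) (fun _ => (1 : ℂ)) u
      = if π u ∈ B then (Nat.card H : ℂ) else 0 := by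
  classical
  have : Fintype U := Fintype.ofFinite U
  have hcomm : ∀ a b : H, a * b = b * a := fun a b => mul_comm' a b
  have h1 : ∀ x : U, ext (B.comap π) (fun _ => (1 : ℂ)) (x⁻¹ * u * x) = if π u ∈ B then 1 else 0 := by
    intro x
    have h2 : x⁻¹ * u * x ∈ B.comap π ↔ π u ∈ B := by
      rw [Subgroup.mem_comap, map_mul, map_mul, map_inv, hcomm _ (π u), mul_assoc, inv_mul_cancel,
        mul_one]
    by_cases h : π u ∈ B
    · rw [if_pos h, ext_mem _ _ (h2.mpr h)]
    · rw [if_neg h, ext_not _ _ (fun h3 => h (h2.mp h3))]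
  rw [ind_eq, Finset.sum_congr rfl (fun x _ => h1 x), Finset.sum_const, Finset.card_univ,
    nsmul_eq_mul, ← Nat.card_eq_fintype_card]
  by_cases h : π u ∈ B
  swap
  · rw [if_neg h, if_neg h]; simp
  rw [if_pos h, if_pos h, mul_one]
  have h3 : Nat.card (B.comap π) * B.index = Nat.card U := by
    rw [← Subgroup.index_comap_of_surjective B hπ]
    exact Subgroup.card_mul_index _
  have h4 : Nat.card B * B.index = Nat.card H := Subgroup.card_mul_index _
  have h5 : (Nat.card (B.comap π) : ℂ) ≠ 0 := by exact_mod_cast Nat.card_pos.ne'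
  rw [← h3, ← h4]
  push_cast
  field_simp

/-- integer-valued functions on a cyclic quotient which only depend on the subgroup generated -/
theorem cyc_span [IsMulCommutative H] (π : U →* H) (hπ : Function.Surjective π) (F : H → ℤ)
    (hF : ∀ x y : H, Subgroup.zpowers x = Subgroup.zpowers y → F x = F y) :
    Nat.card H • (fun u => (F (π u) : ℂ)) ∈ AddSubgroup.closure
      {f : U → ℂ | ∃ V : Subgroup U, f = ind V (fun _ => 1)} := by
  classical
  let S0 : Set (U → ℂ) := {f : U → ℂ | ∃ V : Subgroup U, f = ind V (fun _ => 1)}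
  let S : AddSubgroup (U → ℂ) := AddSubgroup.closure S0
  let A : AddSubgroup (U → ℂ) := S.comap (nsmulAddMonoidHom (Nat.card H))
  have hA : ∀ f, f ∈ A ↔ Nat.card H • f ∈ S := fun f => Iff.rfl
  change (fun u => (F (π u) : ℂ)) ∈ A
  have h1 : ∀ B : Subgroup H, (fun u => if π u ∈ B then (1 : ℂ) else 0) ∈ A := by
    intro B
    rw [hA]
    have h2 : Nat.card H • (fun u => if π u ∈ B then (1 : ℂ) else 0)
        = Nat.card B • ind (B.comap π) (fun _ => (1 : ℂ)) := by
      funext u
      rw [Pi.smul_apply, Pi.smul_apply, nsmul_eq_mul, nsmul_eq_mul, ind_comap π hπ B u]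
      by_cases h : π u ∈ B
      · rw [if_pos h, if_pos h, mul_one]
      · rw [if_neg h, if_neg h, mul_zero]
    rw [h2]
    have h3 : ind (B.comap π) (fun _ => (1 : ℂ)) ∈ S0 := ⟨_, rfl⟩
    exact nsmul_mem (AddSubgroup.subset_closure h3) _
  have hfinS : Finite (Subgroup H) := inferInstance
  have : Fintype (Subgroup H) := Fintype.ofFinite _
  have h2 : ∀ n : ℕ, ∀ B : Subgroup H, Nat.card B = n →
      (fun u => if Subgroup.zpowers (π u) = B then (1 : ℂ) else 0) ∈ A := by
    intro n
    induction n using Nat.strong_induction_on with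
    | _ n ih =>
      intro B hB
      have h3 : (fun u => if Subgroup.zpowers (π u) = B then (1 : ℂ) else 0)
          = (fun u => if π u ∈ B then (1 : ℂ) else 0)
            - ∑ B' ∈ Finset.univ.filter (fun B' : Subgroup H => B' < B),
              (fun u => if Subgroup.zpowers (π u) = B' then (1 : ℂ) else 0) := by
        funext u
        rw [Pi.sub_apply, Finset.sum_apply]
        rw [Finset.sum_ite_eq (Finset.univ.filter (fun B' : Subgroup H => B' < B))]
        simp only [Finset.mem_filter, Finset.mem_univ, true_and]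
        rw [← Subgroup.zpowers_le]
        by_cases h4 : Subgroup.zpowers (π u) = B
        · rw [if_pos h4, if_pos h4.le, if_neg (by rw [h4]; exact lt_irrefl _), sub_zero]
        · rw [if_neg h4]
          by_cases h5 : Subgroup.zpowers (π u) ≤ B
          · rw [if_pos h5, if_pos (lt_of_le_of_ne h5 h4), sub_self]
          · rw [if_neg h5, if_neg (fun h6 => h5 h6.le), sub_zero]
      rw [h3]
      refine sub_mem (h1 B) (sum_mem fun B' hB' => ?_)
      have h4 : B' < B := (Finset.mem_filter.mp hB').2
      have h5 : Nat.card B' < n := by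
        rw [← hB]
        exact Set.ncard_lt_ncard (by exact_mod_cast h4) (Set.toFinite _)
      exact ih _ h5 B' rfl
  let c : Subgroup H → ℤ := fun B => if h : ∃ x, Subgroup.zpowers x = B then F h.choose else 0
  have h3 : (fun u => (F (π u) : ℂ)) = ∑ B : Subgroup H,
      c B • (fun u => if Subgroup.zpowers (π u) = B then (1 : ℂ) else 0) := by
    funext u
    rw [Finset.sum_apply, Finset.sum_eq_single (Subgroup.zpowers (π u))]
    · rw [Pi.smul_apply, if_pos rfl, zsmul_eq_mul, mul_one]
      have h : ∃ x, Subgroup.zpowers x = Subgroup.zpowers (π u) := ⟨_, rfl⟩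
      simp only [c, dif_pos h]
      rw [hF _ _ h.choose_spec]
    · intro B _ hB
      rw [Pi.smul_apply, if_neg (fun h => hB h.symm), smul_zero]
    · intro h
      exact absurd (Finset.mem_univ _) h
  rw [h3]
  exact sum_mem fun B _ => zsmul_mem (h2 _ B rfl) _

end cyc

end Pool.Agent.K4H77.SL
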