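import Mathlib
import Pool.Agent.K4H77.SL.Grp
import Pool.Agent.K4H74.ST.Inv

/-!
# Rational values of virtual characters
-/

set_option autoImplicit false
set_option linter.unusedSectionVars false

namespace Pool.Agent.K4H77.SL

open Pool.Agent.H302R2 Pool.Agent.H302R3 Pool.Agent.H541R3.ART Pool.Agent.W446.AS
open Pool.Agent.R389

section

variable {G : Type} [Group G] [Finite G]

/-- characters are Heilbronn functions -/
lemma heil_of_closure' {f : G → ℂ} (hf : f ∈ AddSubmonoid.closure (Irr G)) : IsHeilbronn f where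
  conj := by
    have h2 : AddSubmonoid.closure (Irr G) ≤ (AddSubgroup.closure (Irr G)).toAddSubmonoid := by
      rw [AddSubmonoid.closure_le]
      exact AddSubgroup.subset_closure
    have h3 : Virt f := h2 hf
    exact h3.conj
  mult H ψ := by
    induction hf using AddSubmonoid.closure_induction with
    | mem χ hχ => exact exists_mult hχ H ψ
    | zero => exact ⟨0, by simp⟩
    | add x y _ _ hx hy =>
      obtain ⟨n, hn⟩ := hx
      obtain ⟨m, hm⟩ := hy
      refine ⟨n + m, ?_⟩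
      have h1 : ∀ h : H, (x + y) h * (((ψ h)⁻¹ : ℂˣ) : ℂ)
          = x h * (((ψ h)⁻¹ : ℂˣ) : ℂ) + y h * (((ψ h)⁻¹ : ℂˣ) : ℂ) := by
        intro h
        rw [Pi.add_apply, add_mul]
      rw [finsum_congr h1, finsum_add_distrib (Set.toFinite _) (Set.toFinite _), hn, hm]
      push_cast
      ring


lemma pow_mod_natCard_aux {ζ : ℂ} {n : ℕ} (hζ : IsPrimitiveRoot ζ n) (k : ℕ) :
    ζ ^ k = ζ ^ (k % n) := by
  conv_lhs => rw [← Nat.mod_add_div k n, pow_add, pow_mul, hζ.pow_eq_one, one_pow, mul_one]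

lemma expand_cyc {f : G → ℂ} (hf : IsHeilbronn f) (g : G) {ζ : ℂ}
    (hζ : IsPrimitiveRoot ζ (orderOf g)) :
    ∃ P : Polynomial ℤ, ∀ k : ℕ, f (g ^ k) = Polynomial.aeval (ζ ^ k) P := by
  classical
  set n := orderOf g with hn
  have hn0 : 0 < n := orderOf_pos g
  have hnC : (n : ℂ) ≠ 0 := by exact_mod_cast hn0.ne'
  have hζ0 : ζ ≠ 0 := hζ.ne_zero hn0.ne'
  let g' : Subgroup.zpowers g := ⟨g, Subgroup.mem_zpowers g⟩
  have hg' : ∀ x : Subgroup.zpowers g, x ∈ Subgroup.zpowers g' := by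
    rintro ⟨x, k, hk⟩
    exact ⟨k, Subtype.ext hk⟩
  have hζu : ∀ j : ℕ, (Units.mk0 ζ hζ0 ^ j) ^ n = 1 := by
    intro j
    apply Units.ext
    rw [← pow_mul, mul_comm, pow_mul, Units.val_pow_eq_pow_val, Units.val_pow_eq_pow_val]
    change (ζ ^ n) ^ j = 1
    rw [hζ.pow_eq_one, one_pow]
  have hdvd : ∀ j : ℕ, orderOf (Units.mk0 ζ hζ0 ^ j) ∣ orderOf g' := by
    intro j
    rw [Subgroup.orderOf_mk, ← hn]
    exact orderOf_dvd_of_pow_eq_one (hζu j)
  let χ : ℕ → (Subgroup.zpowers g →* ℂˣ) := fun j => monoidHomOfForallMemZpowers hg' (hdvd j)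
  have hχ : ∀ j (i : ℕ), χ j (g' ^ i) = Units.mk0 ζ hζ0 ^ (j * i) := by
    intro j i
    rw [map_pow, pow_mul]
    congr 1
    exact monoidHomOfForallMemZpowers_apply_gen hg' (hdvd j)
  have hfing : IsOfFinOrder g := isOfFinOrder_of_finite g
  have h1 : ∀ j : ℕ, ∃ a : ℕ, ∑ i : Fin n, f (g ^ (i : ℕ)) * (ζ ^ (j * (i : ℕ)))⁻¹ = a * n := by
    intro j
    obtain ⟨a, ha⟩ := hf.mult (Subgroup.zpowers g) (χ j)
    refine ⟨a, ?_⟩
    have hfi : Fintype (Subgroup.zpowers g) := Fintype.ofFinite _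
    rw [finsum_eq_sum_of_fintype, ← Equiv.sum_comp (finEquivZPowers hfing), Nat.card_zpowers] at ha
    refine (Finset.sum_congr rfl fun i _ => ?_).trans ha
    have h2 : finEquivZPowers hfing i = g' ^ (i : ℕ) := by
      apply Subtype.ext
      rw [finEquivZPowers_apply]
      rfl
    rw [h2]
    congr 1
    rw [hχ, Units.val_inv_eq_inv_val, Units.val_pow_eq_pow_val]
    rfl
  choose a ha using h1
  refine ⟨∑ j ∈ Finset.range n, Polynomial.C (a j : ℤ) * Polynomial.X ^ j, fun k => ?_⟩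
  rw [map_sum]
  have h2 : ∀ j ∈ Finset.range n, Polynomial.aeval (ζ ^ k) (Polynomial.C (a j : ℤ) * Polynomial.X ^ j)
      = (n : ℂ)⁻¹ * ∑ i : Fin n, f (g ^ (i : ℕ)) * (ζ ^ k * (ζ ^ (i : ℕ))⁻¹) ^ j := by
    intro j _
    rw [map_mul, Polynomial.aeval_C, map_pow, Polynomial.aeval_X]
    have h3 : (algebraMap ℤ ℂ) (a j : ℤ) = (n : ℂ)⁻¹ * ((a j : ℂ) * n) := by
      rw [algebraMap_int_eq, eq_intCast]
      push_cast
      field_simp
    rw [h3, ← ha j, mul_assoc, Finset.sum_mul]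
    congr 1
    refine Finset.sum_congr rfl fun i _ => ?_
    rw [mul_pow, inv_pow, ← pow_mul ζ i j, mul_comm (i : ℕ) j]
    ring
  rw [Finset.sum_congr rfl h2, ← Finset.mul_sum, Finset.sum_comm]
  have h4 : ∀ i : Fin n, ∑ j ∈ Finset.range n, f (g ^ (i : ℕ)) * (ζ ^ k * (ζ ^ (i : ℕ))⁻¹) ^ j
      = if i = ⟨k % n, Nat.mod_lt _ hn0⟩ then n * f (g ^ k) else 0 := by
    intro i
    rw [← Finset.mul_sum]
    by_cases h : i = ⟨k % n, Nat.mod_lt _ hn0⟩
    · rw [if_pos h]
      have h5 : (i : ℕ) = k % n := by rw [h]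
      have h6 : ζ ^ (i : ℕ) = ζ ^ k := by
        rw [h5]
        exact (pow_mod_natCard_aux hζ k).symm
      have h7 : g ^ (i : ℕ) = g ^ k := by
        rw [h5, hn]
        exact pow_mod_orderOf g k
      rw [h6, mul_inv_cancel₀ (pow_ne_zero _ hζ0), h7]
      simp [mul_comm]
    · rw [if_neg h]
      have h5 : ζ ^ k * (ζ ^ (i : ℕ))⁻¹ ≠ 1 := by
        intro h6
        apply h
        have h7 : ζ ^ k = ζ ^ (i : ℕ) := by
          rwa [mul_inv_eq_one₀ (pow_ne_zero _ hζ0)] at h6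
        have h8 : k % n = (i : ℕ) % n := by
          have h9 : ζ ^ (k % n) = ζ ^ ((i : ℕ)) := by
            rw [← pow_mod_natCard_aux hζ k, h7]
          have h10 := hζ.pow_inj (Nat.mod_lt _ hn0) i.2 h9
          rw [h10, Nat.mod_eq_of_lt i.2]
        apply Fin.ext
        change (i : ℕ) = k % n
        rw [h8, Nat.mod_eq_of_lt i.2]
      have h6 : (ζ ^ k * (ζ ^ (i : ℕ))⁻¹) ^ n = 1 := by
        rw [mul_pow, inv_pow, ← pow_mul, ← pow_mul, mul_comm k, mul_comm (i : ℕ), pow_mul, pow_mul,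
          hζ.pow_eq_one, one_pow, one_pow, inv_one, mul_one]
      have h7 := geom_sum_mul (ζ ^ k * (ζ ^ (i : ℕ))⁻¹) n
      rw [h6, sub_self] at h7
      rw [(mul_eq_zero.mp h7).resolve_right (sub_ne_zero.mpr h5), mul_zero]
  rw [Finset.sum_congr rfl (fun i _ => h4 i), Finset.sum_ite_eq', if_pos (Finset.mem_univ _)]
  field_simp

/-- a rational value of a virtual character is an integer and is also the value at the other
generators of the same cyclic subgroup -/
lemma rat_int {f f' : G → ℂ} (hf : IsHeilbronn f) (hf' : IsHeilbronn f') (g : G)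
    (hq : ∃ q : ℚ, f g - f' g = q) : ∃ z : ℤ, ∀ h : G, Subgroup.zpowers h = Subgroup.zpowers g →
      f h - f' h = z := by
  classical
  have hn0 : 0 < orderOf g := orderOf_pos g
  let ζ : ℂ := Complex.exp (2 * Real.pi * Complex.I / (orderOf g : ℂ))
  have hζ : IsPrimitiveRoot ζ (orderOf g) := Complex.isPrimitiveRoot_exp _ hn0.ne'
  obtain ⟨P₁, hP₁⟩ := expand_cyc hf g hζ
  obtain ⟨P₂, hP₂⟩ := expand_cyc hf' g hζ
  let P := P₁ - P₂
  have hP : ∀ k : ℕ, f (g ^ k) - f' (g ^ k) = Polynomial.aeval (ζ ^ k) P := by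
    intro k
    rw [hP₁, hP₂, map_sub]
  have hζi : IsIntegral ℤ ζ := hζ.isIntegral hn0
  obtain ⟨q, hq⟩ := hq
  have h1 : IsIntegral ℤ (q : ℂ) := by
    have h2 := hP 1
    rw [pow_one, pow_one] at h2
    rw [← hq, h2]
    exact IsIntegral.of_mem_of_fg _ (hζi.fg_adjoin_singleton) _ (Polynomial.aeval_mem_adjoin_singleton ℤ ζ)
  have h2 : IsIntegral ℤ q := by
    have h3 : (algebraMap ℚ ℂ) q = (q : ℂ) := rfl
    rw [← h3] at h1
    exact (isIntegral_algebraMap_iff (algebraMap ℚ ℂ).injective).mp h1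
  obtain ⟨z, hz⟩ := IsIntegrallyClosed.isIntegral_iff.mp h2
  have hzq : (q : ℂ) = (z : ℂ) := by
    rw [← hz]
    simp
  refine ⟨z, fun h hh => ?_⟩
  have h3 : h ∈ Subgroup.zpowers g := by
    rw [← hh]
    exact Subgroup.mem_zpowers h
  obtain ⟨k, rfl⟩ := (isOfFinOrder_of_finite g).mem_powers_iff_mem_zpowers.mpr h3
  simp only at hh ⊢
  have h4 : orderOf (g ^ k) = orderOf g := by
    rw [← Nat.card_zpowers, hh, Nat.card_zpowers]
  have h5 : Nat.Coprime k (orderOf g) := by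
    rw [orderOf_pow] at h4
    have h6 : Nat.gcd (orderOf g) k ∣ orderOf g := Nat.gcd_dvd_left _ _
    have h7 := Nat.div_mul_cancel h6
    rw [h4] at h7
    have h8 : Nat.gcd (orderOf g) k = 1 := by
      have h9 : orderOf g * Nat.gcd (orderOf g) k = orderOf g * 1 := by rw [h7, mul_one]
      exact Nat.eq_of_mul_eq_mul_left hn0 h9
    rw [Nat.Coprime, Nat.gcd_comm]
    exact h8
  rw [hP]
  have h6 : Polynomial.aeval ζ (P - Polynomial.C z) = 0 := by
    have h7 := hP 1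
    rw [pow_one, pow_one, hq, hzq] at h7
    rw [map_sub, ← h7, Polynomial.aeval_C]
    simp
  have h7 : minpoly ℤ ζ ∣ P - Polynomial.C z := minpoly.isIntegrallyClosed_dvd hζi h6
  have h8 : minpoly ℤ ζ = minpoly ℤ (ζ ^ k) := hζ.minpoly_eq_pow_coprime h5
  rw [h8] at h7
  obtain ⟨R, hR⟩ := h7
  have h9 : Polynomial.aeval (ζ ^ k) (P - Polynomial.C z) = 0 := by
    rw [hR, map_mul, minpoly.aeval, zero_mul]
  rw [map_sub, Polynomial.aeval_C, sub_eq_zero] at h9
  rw [h9]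
  simp

end

end Pool.Agent.K4H77.SL
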