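import Mathlib

/-!
# A finite-level form of the theorem of F. K. Schmidt

The polynomial whose roots cannot exist in an extension in which an automorphism preserves
two primes lying over different primes below.
-/

set_option autoImplicit false
set_option linter.unusedSectionVars false

namespace Pool.Agent.K4H77.SL

open NumberField Polynomial

section act

variable {K L : Type} [Field K] [Field L] [Algebra K L]

/-- the action of an automorphism on the ring of integers -/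
noncomputable def gi (g : L ≃ₐ[K] L) : 𝓞 L →+* 𝓞 L :=
  RingOfIntegers.mapRingHom ((g : L ≃+* L) : L →+* L)

lemma gi_coe (g : L ≃ₐ[K] L) (x : 𝓞 L) : ((gi g x : 𝓞 L) : L) = g (x : L) := rfl

lemma gi_mul (g h : L ≃ₐ[K] L) (x : 𝓞 L) : gi (g * h) x = gi g (gi h x) := by
  apply RingOfIntegers.ext
  rfl

lemma gi_one (x : 𝓞 L) : gi (1 : L ≃ₐ[K] L) x = x := by
  apply RingOfIntegers.ext
  rfl

/-- the decomposition group of an ideal -/
def decomp (K : Type) {L : Type} [Field K] [Field L] [Algebra K L] (P : Ideal (𝓞 L)) :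
    Set (L ≃ₐ[K] L) :=
  {g | ∀ x : 𝓞 L, gi g x ∈ P ↔ x ∈ P}

/-- the inertia group of an ideal -/
def inertia (K : Type) {L : Type} [Field K] [Field L] [Algebra K L] (P : Ideal (𝓞 L)) :
    Set (L ≃ₐ[K] L) :=
  {g | ∀ x : 𝓞 L, gi g x - x ∈ P}

lemma inertia_sub (P : Ideal (𝓞 L)) : inertia K P ⊆ decomp K P := by
  intro g hg x
  have h := hg x
  constructor
  · intro h1
    have h2 := P.sub_mem h1 h
    rwa [sub_sub_cancel] at h2
  · intro h1
    have h2 := P.add_mem h h1
    rwa [sub_add_cancel] at h2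

lemma decomp_one (P : Ideal (𝓞 L)) : (1 : L ≃ₐ[K] L) ∈ decomp K P := fun x => by rw [gi_one]

lemma decomp_mul {P : Ideal (𝓞 L)} {g h : L ≃ₐ[K] L} (hg : g ∈ decomp K P) (hh : h ∈ decomp K P) :
    g * h ∈ decomp K P := fun x => by rw [gi_mul, hg, hh]

lemma decomp_pow {P : Ideal (𝓞 L)} {g : L ≃ₐ[K] L} (hg : g ∈ decomp K P) (n : ℕ) :
    g ^ n ∈ decomp K P := by
  induction n with
  | zero => rw [pow_zero]; exact decomp_one P
  | succ n ih => rw [pow_succ]; exact decomp_mul ih hg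

lemma decomp_inv {P : Ideal (𝓞 L)} {g : L ≃ₐ[K] L} (hg : g ∈ decomp K P) : g⁻¹ ∈ decomp K P := by
  intro x
  have h := hg (gi g⁻¹ x)
  rw [← gi_mul, mul_inv_cancel, gi_one] at h
  exact h.symm

lemma decomp_zpow {P : Ideal (𝓞 L)} {g : L ≃ₐ[K] L} (hg : g ∈ decomp K P) (n : ℤ) :
    g ^ n ∈ decomp K P := by
  cases n with
  | ofNat n => rw [Int.ofNat_eq_natCast, zpow_natCast]; exact decomp_pow hg n
  | negSucc n => rw [zpow_negSucc]; exact decomp_inv (decomp_pow hg _)

end act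

lemma prod_rot {M : Type} [CommMonoid M] {F : ℕ → M} {n : ℕ} (hn : F n = F 0) :
    ∏ i ∈ Finset.range n, F (i + 1) = ∏ i ∈ Finset.range n, F i := by
  cases n with
  | zero => simp
  | succ n => rw [Finset.prod_range_succ, Finset.prod_range_succ', hn]

section poly

variable {K L : Type} [Field K] [Field L] [NumberField L] [Algebra K L]

/-- the polynomial `∏ (X - g^i θ)` -/
noncomputable def pA (g : L ≃ₐ[K] L) (n : ℕ) (θ : 𝓞 L) : (𝓞 L)[X] :=
  ∏ i ∈ Finset.range n, (X - C (gi (g ^ i) θ))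

/-- the polynomial -/
noncomputable def pf (g : L ≃ₐ[K] L) (n : ℕ) (θ ε : 𝓞 L) : (𝓞 L)[X] :=
  C ε * pA g n θ + C (1 - ε) * (X ^ n - X ^ (n - 1))

lemma pA_monic (g : L ≃ₐ[K] L) (n : ℕ) (θ : 𝓞 L) : (pA g n θ).Monic :=
  monic_prod_of_monic _ _ fun i _ => monic_X_sub_C _

lemma pA_deg (g : L ≃ₐ[K] L) (n : ℕ) (θ : 𝓞 L) : (pA g n θ).natDegree = n := by
  rw [pA, natDegree_prod_of_monic _ _ (fun i _ => monic_X_sub_C _)]
  simp

lemma pf_monic (g : L ≃ₐ[K] L) {n : ℕ} (hn : 0 < n) (θ ε : 𝓞 L) : (pf g n θ ε).Monic := by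
  have hA := pA_monic g n θ
  have hAd := pA_deg g n θ
  have hc : (pf g n θ ε).coeff n = 1 := by
    have h1 : (pA g n θ).coeff n = 1 := by
      have := hA.coeff_natDegree
      rwa [hAd] at this
    rw [pf, coeff_add, coeff_C_mul, coeff_C_mul, h1, coeff_sub, coeff_X_pow, coeff_X_pow, if_pos rfl,
      if_neg (by omega)]
    ring
  have hd : (pf g n θ ε).natDegree ≤ n := by
    refine (natDegree_add_le _ _).trans (max_le ?_ ?_)
    · exact (natDegree_C_mul_le _ _).trans hAd.le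
    · refine (natDegree_C_mul_le _ _).trans ((natDegree_sub_le _ _).trans (max_le ?_ ?_))
      · exact natDegree_X_pow_le n
      · exact (natDegree_X_pow_le (n - 1)).trans (Nat.sub_le _ _)
  exact monic_of_natDegree_le_of_coeff_eq_one n hd hc

lemma pA_inv (g : L ≃ₐ[K] L) {n : ℕ} (hn : g ^ n = 1) (θ : 𝓞 L) :
    (pA g n θ).map (gi g) = pA g n θ := by
  rw [pA, Polynomial.map_prod]
  have h1 : ∀ i ∈ Finset.range n, (X - C (gi (g ^ i) θ)).map (gi g)
      = X - C (gi (g ^ (i + 1)) θ) := by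
    intro i _
    rw [Polynomial.map_sub, Polynomial.map_X, Polynomial.map_C, ← gi_mul, ← pow_succ']
  rw [Finset.prod_congr rfl h1]
  exact prod_rot (F := fun i => X - C (gi (g ^ i) θ)) (by simp only [hn, pow_zero])

lemma pf_inv (g : L ≃ₐ[K] L) {n : ℕ} (hn : g ^ n = 1) (θ : 𝓞 L) {ε : 𝓞 L} (hε : gi g ε = ε) :
    (pf g n θ ε).map (gi g) = pf g n θ ε := by
  rw [pf, Polynomial.map_add, Polynomial.map_mul, Polynomial.map_mul, Polynomial.map_sub,
    Polynomial.map_pow, Polynomial.map_pow, Polynomial.map_X, Polynomial.map_C, Polynomial.map_C,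
    pA_inv g hn, map_sub, map_one, hε]

/-- the choice of `ε` -/
lemma exists_eps (g : L ≃ₐ[K] L) {n : ℕ} (hn : g ^ n = 1) (hn0 : 0 < n) {w w' : Ideal (𝓞 L)}
    (hw : w.IsMaximal) (hw' : w'.IsMaximal) (hne : w ≠ w') (hg : g ∈ decomp K w) (k : ℕ) :
    ∃ ε : 𝓞 L, gi g ε = ε ∧ ε ∈ w' ∧ 1 - ε ∈ w ^ k := by
  have h1 : IsCoprime (w ^ k) w' :=
    IsCoprime.pow_left (Ideal.isCoprime_iff_sup_eq.mpr (hw.coprime_of_ne hw' hne))
  obtain ⟨a, ha, b, hb, hab⟩ := Ideal.isCoprime_iff_exists.mp h1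
  refine ⟨∏ i ∈ Finset.range n, gi (g ^ i) b, ?_, ?_, ?_⟩
  · rw [map_prod]
    have h2 : ∀ i ∈ Finset.range n, gi g (gi (g ^ i) b) = gi (g ^ (i + 1)) b := by
      intro i _
      rw [← gi_mul, ← pow_succ']
    rw [Finset.prod_congr rfl h2]
    exact prod_rot (F := fun i => gi (g ^ i) b) (by simp only [hn, pow_zero])
  · obtain ⟨l, rfl⟩ : ∃ l, n = l + 1 := ⟨n - 1, by omega⟩
    rw [Finset.prod_range_succ', pow_zero, gi_one]
    exact Ideal.mul_mem_left _ _ hb
  · have h3 : ∀ i : ℕ, gi (g ^ i) a ∈ w ^ k := by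
      intro i
      have h4 : w ≤ w.comap (gi (g ^ i)) := fun x hx => by
        rw [Ideal.mem_comap]
        exact (decomp_pow hg i x).mpr hx
      have h5 : w ^ k ≤ (w ^ k).comap (gi (g ^ i)) :=
        (Ideal.pow_right_mono h4 k).trans (Ideal.le_comap_pow _ _)
      exact h5 ha
    have h6 : b = 1 - a := by rw [← hab]; ring
    rw [← Ideal.Quotient.eq_zero_iff_mem, map_sub, map_one, map_prod]
    have h7 : ∀ i ∈ Finset.range n, Ideal.Quotient.mk (w ^ k) (gi (g ^ i) b) = 1 := by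
      intro i _
      rw [h6, map_sub, map_one, map_sub, map_one, Ideal.Quotient.eq_zero_iff_mem.mpr (h3 i), sub_zero]
    rw [Finset.prod_congr rfl h7, Finset.prod_const_one, sub_self]

end poly

section val

variable {N : Type} [Field N] [NumberField N]

/-- a maximal ideal as a height one prime -/
noncomputable def hos (Q : Ideal (𝓞 N)) (hQ : Q.IsMaximal) :
    IsDedekindDomain.HeightOneSpectrum (𝓞 N) :=
  ⟨Q, hQ.isPrime, Ring.ne_bot_of_isMaximal_of_not_isField hQ (RingOfIntegers.not_isField N)⟩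

lemma val_inv {K : Type} [Field K] [Algebra K N] {Q : Ideal (𝓞 N)} (hQ : Q.IsMaximal)
    {g : N ≃ₐ[K] N} (hg : g ∈ decomp K Q) (x : 𝓞 N) :
    (hos Q hQ).intValuation (gi g x) = (hos Q hQ).intValuation x := by
  have key : ∀ (g : N ≃ₐ[K] N), g ∈ decomp K Q → ∀ x : 𝓞 N,
      (hos Q hQ).intValuation (gi g x) ≤ (hos Q hQ).intValuation x := by
    intro g hg x
    by_cases hx : x = 0
    · rw [hx, map_zero]
    have h1 : (hos Q hQ).intValuation x ≠ 0 := (hos Q hQ).intValuation_ne_zero x hx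
    rw [IsDedekindDomain.HeightOneSpectrum.intValuation_if_neg _ hx]
    rw [IsDedekindDomain.HeightOneSpectrum.intValuation_le_pow_iff_mem]
    have h4 : Q ≤ Q.comap (gi g) := fun x hx => by
      rw [Ideal.mem_comap]
      exact (hg x).mpr hx
    have h5 : ∀ k, Q ^ k ≤ (Q ^ k).comap (gi g) := fun k =>
      (Ideal.pow_right_mono h4 k).trans (Ideal.le_comap_pow _ _)
    apply h5
    have h6 := (IsDedekindDomain.HeightOneSpectrum.intValuation_le_pow_iff_mem (hos Q hQ) x
      ((Associates.mk (hos Q hQ).asIdeal).count (Associates.mk (Ideal.span {x})).factors)).mp (by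
        rw [IsDedekindDomain.HeightOneSpectrum.intValuation_if_neg _ hx])
    exact h6
  apply le_antisymm (key g hg x)
  have h := key g⁻¹ (decomp_inv hg) (gi g x)
  rwa [← gi_mul, inv_mul_cancel, gi_one] at h

end val

end Pool.Agent.K4H77.SL
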