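import Mathlib
import Pool.Agent.K4H77.SL.Key

/-!
# A finite-level form of the theorem of F. K. Schmidt: the contradiction
-/

set_option autoImplicit false
set_option linter.unusedSectionVars false

namespace Pool.Agent.K4H77.SL

open NumberField Polynomial

section key

variable {K L N : Type} [Field K] [NumberField K] [Field L] [NumberField L] [Algebra K L]
  [Field N] [NumberField N] [Algebra K N] [Algebra L N] [IsScalarTower K L N]

/-- the key contradiction -/
theorem key_false {g : L ≃ₐ[K] L} {n : ℕ} (hn : g ^ n = 1) (hn2 : 2 ≤ n) {θ ε : 𝓞 L}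
    (hθ : gi g θ ≠ θ) (hεg : gi g ε = ε) {w w' : Ideal (𝓞 L)} (hw : w.IsMaximal)
    {k : ℕ} (hε : ε ∈ w') (hε' : 1 - ε ∈ w ^ k)
    (hd : ∏ i ∈ Finset.range n, gi (g ^ i) (gi g θ - θ) ∉ w ^ k)
    {σ : N ≃ₐ[K] N} (hσ : ∀ x : L, σ (algebraMap L N x) = algebraMap L N (g x))
    {Q Q' : Ideal (𝓞 N)} (hQ : Q.IsMaximal) (hQ' : Q'.IsMaximal)
    (hQw : Q.comap (algebraMap (𝓞 L) (𝓞 N)) = w)
    (hQw' : Q'.comap (algebraMap (𝓞 L) (𝓞 N)) = w')
    (hσQ : σ ∈ decomp K Q) (hσQ' : σ ∈ decomp K Q')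
    {s : Multiset (𝓞 N)} (hs : (pf g n θ ε).map (algebraMap (𝓞 L) (𝓞 N))
      = (s.map (fun a => X - C a)).prod) : False := by
  classical
  let φ : 𝓞 L →+* 𝓞 N := algebraMap (𝓞 L) (𝓞 N)
  have hφ : ∀ x : 𝓞 L, ((φ x : 𝓞 N) : N) = algebraMap L N (x : L) := fun x => rfl
  have hσφ : ∀ x : 𝓞 L, gi σ (φ x) = φ (gi g x) := by
    intro x
    apply RingOfIntegers.ext
    rw [gi_coe, hφ, hφ, gi_coe, hσ]
  have hσi : ∀ (i : ℕ) (x : 𝓞 L), gi (σ ^ i) (φ x) = φ (gi (g ^ i) x) := by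
    intro i
    induction i with
    | zero => intro x; rw [pow_zero, pow_zero, gi_one, gi_one]
    | succ i ih => intro x; rw [pow_succ', gi_mul, ih, hσφ, pow_succ', gi_mul]
  let F : (𝓞 N)[X] := (pf g n θ ε).map φ
  have hF : F = (s.map (fun a => X - C a)).prod := hs
  have hFσ : F.map (gi σ) = F := by
    change ((pf g n θ ε).map φ).map (gi σ) = (pf g n θ ε).map φ
    rw [Polynomial.map_map]
    have h1 : (gi σ).comp φ = φ.comp (gi g) := RingHom.ext hσφ
    rw [h1, ← Polynomial.map_map, pf_inv g hn θ hεg]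
  have hFe : ∀ x : 𝓞 N, F.eval x = φ ε * ∏ i ∈ Finset.range n, (x - φ (gi (g ^ i) θ))
      + (1 - φ ε) * (x ^ n - x ^ (n - 1)) := by
    intro x
    simp only [F, pf, pA, Polynomial.map_add, Polynomial.map_mul, Polynomial.map_sub,
      Polynomial.map_pow, Polynomial.map_X, Polynomial.map_C, Polynomial.map_prod, eval_add, eval_mul,
      eval_sub, eval_pow, eval_X, eval_C, Polynomial.eval_prod, map_sub, map_one,
      Polynomial.map_one, eval_one]
  have hεQ : φ ε ∈ Q' := by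
    rw [← hQw'] at hε
    exact hε
  -- a root congruent to `1`
  obtain ⟨ρ, hρs, hρ1⟩ : ∃ ρ ∈ s, 1 - ρ ∈ Q' := by
    have h1 : F.eval 1 ∈ Q' := by
      rw [hFe, one_pow, one_pow, sub_self, mul_zero, add_zero]
      exact Q'.mul_mem_right _ hεQ
    have h2 : F.eval 1 = (s.map (fun a => 1 - a)).prod := by
      rw [hF, eval_multiset_prod, Multiset.map_map]
      congr 1
      refine Multiset.map_congr rfl fun a _ => ?_
      simp
    rw [h2] at h1
    obtain ⟨y, hy, hy1⟩ := (hQ'.isPrime.multiset_prod_mem_iff_exists_mem _).mp h1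
    obtain ⟨a, ha, rfl⟩ := Multiset.mem_map.mp hy
    exact ⟨a, ha, hy1⟩
  have hρ0 : F.eval ρ = 0 := by
    rw [hF, eval_multiset_prod, Multiset.map_map]
    apply Multiset.prod_eq_zero
    rw [Multiset.mem_map]
    exact ⟨ρ, hρs, by simp⟩
  have hσρ0 : F.eval (gi σ ρ) = 0 := by
    rw [← hFσ, Polynomial.eval_map, Polynomial.eval₂_hom, hρ0, map_zero]
  have hσρ1 : 1 - gi σ ρ ∈ Q' := by
    have h1 := (hσQ' (1 - ρ)).mpr hρ1
    rwa [map_sub, map_one] at h1
  have hfix : gi σ ρ = ρ := by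
    by_contra hne
    obtain ⟨G, hG⟩ := dvd_iff_isRoot.mpr (hρ0 : F.IsRoot ρ)
    have h1 : G.eval (gi σ ρ) = 0 := by
      have h2 : F.eval (gi σ ρ) = (gi σ ρ - ρ) * G.eval (gi σ ρ) := by
        rw [hG]; simp
      rw [hσρ0] at h2
      exact (mul_eq_zero.mp h2.symm).resolve_left (sub_ne_zero.mpr hne)
    have h3 : F.derivative.eval 1 = G.eval 1 + (1 - ρ) * G.derivative.eval 1 := by
      rw [hG, derivative_mul]
      simp
    have h4 : G.eval 1 ∈ Q' := by
      obtain ⟨c, hc⟩ := sub_dvd_eval_sub 1 (gi σ ρ) G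
      rw [h1, sub_zero] at hc
      rw [hc]
      exact Q'.mul_mem_right _ hσρ1
    have h5 : F.derivative.eval 1 ∈ Q' := by
      rw [h3]
      exact Q'.add_mem h4 (Q'.mul_mem_right _ hρ1)
    have h6 : F.derivative.eval 1 = φ ε * ((pA g n θ).map φ).derivative.eval 1 + (1 - φ ε) := by
      have h7 : F = C (φ ε) * (pA g n θ).map φ + C (1 - φ ε) * (X ^ n - X ^ (n - 1)) := by
        change (pf g n θ ε).map φ = _
        rw [pf, Polynomial.map_add, Polynomial.map_mul, Polynomial.map_mul, Polynomial.map_sub,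
          Polynomial.map_pow, Polynomial.map_pow, Polynomial.map_X, Polynomial.map_C,
          Polynomial.map_C, map_sub, map_one]
      rw [h7, derivative_add, derivative_C_mul, derivative_C_mul, derivative_sub, derivative_X_pow,
        derivative_X_pow]
      simp only [eval_add, eval_mul, eval_C, eval_sub, eval_pow, eval_X, one_pow, mul_one]
      have h8 : ((n - 1 : ℕ) : 𝓞 N) = (n : 𝓞 N) - 1 := by
        rw [Nat.cast_sub (by omega), Nat.cast_one]
      rw [h8]
      ring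
    rw [h6] at h5
    have h9 : φ ε * ((pA g n θ).map φ).derivative.eval 1 - φ ε ∈ Q' :=
      Q'.sub_mem (Q'.mul_mem_right _ hεQ) hεQ
    have h10 := Q'.sub_mem h5 h9
    rw [show φ ε * ((pA g n θ).map φ).derivative.eval 1 + (1 - φ ε)
      - (φ ε * ((pA g n θ).map φ).derivative.eval 1 - φ ε) = 1 by ring] at h10
    exact hQ'.ne_top ((Ideal.eq_top_iff_one _).mpr h10)
  have hfixi : ∀ i : ℕ, gi (σ ^ i) ρ = ρ := by
    intro i
    induction i with
    | zero => rw [pow_zero, gi_one]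
    | succ i ih => rw [pow_succ', gi_mul, ih, hfix]
  -- the valuation at `Q`
  let v := (hos Q hQ).intValuation
  have hvi : ∀ (i : ℕ) (x : 𝓞 N), v (gi (σ ^ i) x) = v x := fun i x =>
    val_inv hQ (decomp_pow hσQ i) x
  have e1 : v (∏ i ∈ Finset.range n, (ρ - φ (gi (g ^ i) θ))) = v (ρ - φ θ) ^ n := by
    rw [map_prod]
    rw [Finset.prod_congr rfl (g := fun _ => v (ρ - φ θ)), Finset.prod_const, Finset.card_range]
    intro i _
    have h : ρ - φ (gi (g ^ i) θ) = gi (σ ^ i) (ρ - φ θ) := by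
      rw [map_sub (gi (σ ^ i)), hfixi, hσi]
    rw [h, hvi]
  have e2 : v (∏ i ∈ Finset.range n, (ρ - φ (gi (g ^ i) θ))) ≤ v (1 - φ ε) := by
    have h1 : ∏ i ∈ Finset.range n, (ρ - φ (gi (g ^ i) θ))
        = (1 - φ ε) * (∏ i ∈ Finset.range n, (ρ - φ (gi (g ^ i) θ)) - (ρ ^ n - ρ ^ (n - 1))) := by
      have h2 := hFe ρ
      rw [hρ0] at h2
      linear_combination -h2
    rw [h1, map_mul]
    exact mul_le_of_le_one_right' (IsDedekindDomain.HeightOneSpectrum.intValuation_le_one _ _)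
  have e3 : v (gi σ (φ θ) - φ θ) ≤ v (ρ - φ θ) := by
    have h1 : gi σ (φ θ) - φ θ = (ρ - φ θ) - gi (σ ^ 1) (ρ - φ θ) := by
      rw [pow_one, map_sub (gi σ), hfix]; ring
    rw [h1]
    refine (Valuation.map_sub _ _ _).trans (max_le le_rfl ?_)
    exact (hvi 1 _).le
  have e4 : v (φ (∏ i ∈ Finset.range n, gi (g ^ i) (gi g θ - θ))) = v (gi σ (φ θ) - φ θ) ^ n := by
    rw [map_prod, map_prod]
    rw [Finset.prod_congr rfl (g := fun _ => v (gi σ (φ θ) - φ θ)), Finset.prod_const,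
      Finset.card_range]
    intro i _
    rw [← hσi, hvi, map_sub φ, ← hσφ]
  have e5 : v (φ (∏ i ∈ Finset.range n, gi (g ^ i) (gi g θ - θ))) ≤ v (φ (1 - ε)) := by
    rw [e4, map_sub φ, map_one φ]
    rw [e1] at e2
    exact (pow_le_pow_left' e3 n).trans e2
  -- compare at `w`
  let u := hos w hw
  have hlo : (hos Q hQ).asIdeal.LiesOver u.asIdeal := ⟨by
    change w = Ideal.under (𝓞 L) Q
    rw [Ideal.under_def]
    exact hQw.symm⟩
  have h1 := IsDedekindDomain.HeightOneSpectrum.intValuation_liesOver u (hos Q hQ)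
    (∏ i ∈ Finset.range n, gi (g ^ i) (gi g θ - θ))
  have h2 := IsDedekindDomain.HeightOneSpectrum.intValuation_liesOver u (hos Q hQ) (1 - ε)
  change _ = v (φ _) at h1
  change _ = v (φ _) at h2
  rw [← h1, ← h2] at e5
  have h3 : u.asIdeal.ramificationIdx' (hos Q hQ).asIdeal ≠ 0 :=
    Ideal.IsDedekindDomain.ramificationIdx'_ne_zero_of_liesOver _ u.ne_bot
  have h4 := (pow_le_pow_iff_left₀ zero_le zero_le h3).mp e5
  have h5 : u.intValuation (1 - ε) ≤ WithZero.exp (-(k : ℤ)) :=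
    (u.intValuation_le_pow_iff_mem _ _).mpr hε'
  exact hd ((u.intValuation_le_pow_iff_mem _ _).mp (h4.trans h5))

end key

end Pool.Agent.K4H77.SL
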