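import Mathlib
import Pool.Agent.K4H77.SL.Key2
import Pool.Agent.K4H74.ST.Fld

/-!
# Extensions in which given polynomials split; the extension of Schmidt
-/

set_option autoImplicit false
set_option linter.unusedSectionVars false

namespace Pool.Agent.K4H77.SL

open NumberField Polynomial

/-- a finite extension, Galois over the base, in which given monic integral polynomials split -/
theorem exists_ext_poly (K L : Type) [Field K] [NumberField K] [Field L] [NumberField L]
    [Algebra K L] [IsGalois K L] (A : Set (𝓞 L)[X]) (hA : A.Finite) (hm : ∀ f ∈ A, f.Monic) :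
    ∃ (N : Type) (_ : Field N) (_ : NumberField N) (_ : Algebra K N) (_ : Algebra L N)
      (_ : IsScalarTower K L N) (_ : IsGalois K N),
      ∀ f ∈ A, ∃ s : Multiset (𝓞 N), f.map (algebraMap (𝓞 L) (𝓞 N))
        = (s.map (fun a => X - C a)).prod := by
  classical
  let Ω := AlgebraicClosure L
  let j0 : 𝓞 L →+* Ω := (algebraMap L Ω).comp (algebraMap (𝓞 L) L)
  let S : Set Ω := ⋃ f ∈ A, {x | x ∈ (f.map j0).roots}
  have hS : S.Finite := by
    refine hA.biUnion fun f _ => ?_
    exact (f.map j0).roots.toFinset.finite_toSet.subset (fun x hx => by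
      simpa using hx)
  let F : IntermediateField L Ω := IntermediateField.adjoin L S
  have hF : FiniteDimensional L F := by
    have : Finite S := hS
    exact IntermediateField.finiteDimensional_adjoin (fun x _ =>
      (Algebra.IsAlgebraic.isAlgebraic (R := L) x).isIntegral)
  have : FiniteDimensional K L := Module.Finite.of_restrictScalars_finite ℚ K L
  have : FiniteDimensional K F := FiniteDimensional.trans K L F
  have : Algebra.IsAlgebraic K Ω := Algebra.IsAlgebraic.trans K L Ω
  have : IsAlgClosure K Ω := ⟨inferInstance, inferInstance⟩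
  have : Normal K Ω := IsAlgClosure.normal K Ω
  let N := IntermediateField.normalClosure K F Ω
  have hN1 : Normal K N := normalClosure.normal K F Ω
  have hN2 : FiniteDimensional K N := normalClosure.is_finiteDimensional K F Ω
  have hN3 : NumberField N := by
    have : CharZero N := charZero_of_injective_algebraMap (algebraMap K N).injective
    exact { to_charZero := this
            to_finiteDimensional := by
              have := FiniteDimensional.trans ℚ K N
              exact this }
  have hKFO : IsScalarTower K F Ω := IsScalarTower.of_algebraMap_eq fun x => by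
    rw [IsScalarTower.algebraMap_apply K L Ω]
    rfl
  let _ : Algebra F N := inferInstanceAs (Algebra F (IntermediateField.normalClosure K F Ω))
  have hKFN : IsScalarTower K F N :=
    inferInstanceAs (IsScalarTower K F (IntermediateField.normalClosure K F Ω))
  have hFNO : ∀ x : F, ((algebraMap F N x : N) : Ω) = (x : Ω) := fun x => rfl
  let i1 : L →+* N := (algebraMap F N).comp (algebraMap L F)
  let _ : Algebra L N := i1.toAlgebra
  have hN4 : IsScalarTower K L N := by
    refine IsScalarTower.of_algebraMap_eq fun x => ?_
    change algebraMap K N x = algebraMap F N (algebraMap L F (algebraMap K L x))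
    rw [IsScalarTower.algebraMap_apply K F N]
    rw [IsScalarTower.algebraMap_apply K L F]
  have hN5 : IsGalois K N := ⟨⟩
  refine ⟨N, inferInstance, hN3, inferInstance, inferInstance, hN4, hN5, fun f hf => ?_⟩
  have hfm := hm f hf
  let r : Multiset Ω := (f.map j0).roots
  have hint : ∀ a ∈ r, IsIntegral ℤ a := by
    intro a ha
    have h1 : (f.map j0).eval a = 0 := (mem_roots (hfm.map j0).ne_zero).mp ha
    rw [eval_map] at h1
    have h2 : IsIntegral (𝓞 L) a := by
      let _ : Algebra (𝓞 L) Ω := j0.toAlgebra
      exact ⟨f, hfm, h1⟩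
    have h3 : @IsIntegral (𝓞 L) Ω _ _ j0.toAlgebra a := by
      let _ : Algebra (𝓞 L) Ω := j0.toAlgebra
      exact ⟨f, hfm, h1⟩
    let _ : Algebra (𝓞 L) Ω := j0.toAlgebra
    exact isIntegral_trans (R := ℤ) (A := 𝓞 L) a h3
  have hN : ∀ a ∈ r, ∃ b : 𝓞 N, (((b : N)) : Ω) = a := by
    intro a ha
    have h1 : a ∈ F := IntermediateField.subset_adjoin L S (Set.mem_biUnion hf ha)
    have h2 : IsIntegral ℤ (algebraMap F N ⟨a, h1⟩ : N) := by
      have h3 : Function.Injective (algebraMap N Ω) := (algebraMap N Ω).injective
      have h4 := (isIntegral_algebraMap_iff (R := ℤ) (A := N) (B := Ω) h3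
        (x := (algebraMap F N ⟨a, h1⟩ : N))).mp
      apply h4
      exact hint a ha
    exact ⟨⟨algebraMap F N ⟨a, h1⟩, h2⟩, rfl⟩
  choose! b hb using hN
  refine ⟨r.map b, ?_⟩
  let j : 𝓞 N →+* Ω := (algebraMap N Ω).comp (algebraMap (𝓞 N) N)
  have hj : Function.Injective j :=
    (algebraMap N Ω).injective.comp RingOfIntegers.coe_injective
  apply Polynomial.map_injective j hj
  rw [Polynomial.map_map]
  have hjj : j.comp (algebraMap (𝓞 L) (𝓞 N)) = j0 := by
    apply RingHom.ext
    intro x
    rfl
  rw [hjj, Polynomial.map_multiset_prod, Multiset.map_map, Multiset.map_map]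
  have h5 : (f.map j0).Splits := IsAlgClosed.splits _
  rw [h5.eq_prod_roots_of_monic (hfm.map j0)]
  congr 1
  refine Multiset.map_congr rfl fun a ha => ?_
  have h6 : j (b a) = a := hb a ha
  simp [h6]

end Pool.Agent.K4H77.SL
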