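import Mathlib
import Pool.Agent.K4H77.SL.Ext

/-!
# The extension of Schmidt
-/

set_option autoImplicit false
set_option linter.unusedSectionVars false

namespace Pool.Agent.K4H77.SL

open NumberField Polynomial Pool.Agent.K4H74.ST

lemma exists_moved {K L : Type} [Field K] [Field L] [NumberField L] [Algebra K L] {g : L ≃ₐ[K] L}
    (hg : g ≠ 1) : ∃ θ : 𝓞 L, gi g θ ≠ θ := by
  by_contra hcon
  push Not at hcon
  apply hg
  ext x
  obtain ⟨a, b, hb, rfl⟩ := IsFractionRing.div_surjective (A := 𝓞 L) x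
  have h1 : ∀ y : 𝓞 L, g (y : L) = (y : L) := fun y => by rw [← gi_coe, hcon]
  change g (algebraMap (𝓞 L) L a / algebraMap (𝓞 L) L b) = _
  rw [map_div₀]
  change g (a : L) / g (b : L) = _
  rw [h1, h1]
  rfl

lemma finite_max (L : Type) [Field L] [NumberField L] {m : ℕ} (hm : m ≠ 0) :
    {w : Ideal (𝓞 L) | w.IsMaximal ∧ (m : 𝓞 L) ∈ w}.Finite := by
  have h1 : (Ideal.span {(m : 𝓞 L)}) ≠ 0 := by
    rw [Ne, Ideal.zero_eq_bot, Ideal.span_singleton_eq_bot]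
    exact_mod_cast hm
  have h2 := Ideal.finite_factors h1
  refine (h2.image (fun v => v.asIdeal)).subset ?_
  rintro w ⟨hw, hmw⟩
  refine ⟨hos w hw, ?_, rfl⟩
  rw [Set.mem_setOf_eq, Ideal.dvd_iff_le, Ideal.span_singleton_le_iff_mem]
  exact hmw

lemma exists_power {L : Type} [Field L] [NumberField L] {w : Ideal (𝓞 L)} (hw : w.IsMaximal)
    {d : 𝓞 L} (hd : d ≠ 0) : ∃ k : ℕ, d ∉ w ^ k := by
  by_contra hcon
  push Not at hcon
  apply hd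
  have h1 := Ideal.iInf_pow_eq_bot_of_isDomain w hw.ne_top
  have h2 : d ∈ ⨅ i : ℕ, w ^ i := by
    rw [Ideal.mem_iInf]
    exact hcon
  rw [h1] at h2
  exact h2

/-- **The theorem of F. K. Schmidt at finite level.** -/
theorem exists_schmidt (K L : Type) [Field K] [NumberField K] [Field L] [NumberField L]
    [Algebra K L] [IsGalois K L] {m : ℕ} (hm : m ≠ 0) :
    ∃ (N : Type) (_ : Field N) (_ : NumberField N) (_ : Algebra K N) (_ : Algebra L N)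
      (_ : IsScalarTower K L N) (_ : IsGalois K N),
      ∀ (σ : N ≃ₐ[K] N) (Q Q' : Ideal (𝓞 N)), Q.IsMaximal → Q'.IsMaximal → (m : 𝓞 N) ∈ Q →
        (m : 𝓞 N) ∈ Q' → σ ∈ decomp K Q → σ ∈ decomp K Q' →
        AlgEquiv.restrictNormalHom L σ ≠ 1 →
        Q.comap (algebraMap (𝓞 L) (𝓞 N)) = Q'.comap (algebraMap (𝓞 L) (𝓞 N)) := by
  classical
  have hfin : FiniteDimensional K L := Module.Finite.of_restrictScalars_finite ℚ K L
  have hθ : ∀ g : L ≃ₐ[K] L, ∃ θ : 𝓞 L, g ≠ 1 → gi g θ ≠ θ := by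
    intro g
    by_cases hg : g = 1
    · exact ⟨0, fun h => absurd hg h⟩
    · obtain ⟨θ, h⟩ := exists_moved hg
      exact ⟨θ, fun _ => h⟩
  choose θ hθ using hθ
  let d : (L ≃ₐ[K] L) → 𝓞 L := fun g =>
    ∏ i ∈ Finset.range (orderOf g), gi (g ^ i) (gi g (θ g) - θ g)
  have hgi : ∀ (g : L ≃ₐ[K] L) (x : 𝓞 L), gi g x = 0 → x = 0 := by
    intro g x hx
    have h1 := gi_mul g⁻¹ g x
    rw [inv_mul_cancel, gi_one, hx, map_zero] at h1
    exact h1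
  have hd : ∀ g, g ≠ 1 → d g ≠ 0 := by
    intro g hg
    rw [Finset.prod_ne_zero_iff]
    intro i _ h
    exact hθ g hg (sub_eq_zero.mp (hgi _ _ h))
  let T : Set (Ideal (𝓞 L)) := {w | w.IsMaximal ∧ (m : 𝓞 L) ∈ w}
  have hT : T.Finite := finite_max L hm
  have hk : ∀ (g : L ≃ₐ[K] L) (w : Ideal (𝓞 L)), ∃ k : ℕ, g ≠ 1 → w.IsMaximal → d g ∉ w ^ k := by
    intro g w
    by_cases hg : g ≠ 1
    · by_cases hw : w.IsMaximal
      · obtain ⟨k, hk⟩ := exists_power hw (hd g hg)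
        exact ⟨k, fun _ _ => hk⟩
      · exact ⟨0, fun _ h => absurd h hw⟩
    · exact ⟨0, fun h => absurd h hg⟩
  choose k hk using hk
  have hε : ∀ (g : L ≃ₐ[K] L) (w w' : Ideal (𝓞 L)), ∃ ε : 𝓞 L, w.IsMaximal → w'.IsMaximal →
      w ≠ w' → g ∈ decomp K w → (gi g ε = ε ∧ ε ∈ w' ∧ 1 - ε ∈ w ^ (k g w)) := by
    intro g w w'
    by_cases h : w.IsMaximal ∧ w'.IsMaximal ∧ w ≠ w' ∧ g ∈ decomp K w
    · obtain ⟨h1, h2, h3, h4⟩ := h
      obtain ⟨ε, hε⟩ := exists_eps g (pow_orderOf_eq_one g) (orderOf_pos g) h1 h2 h3 h4 (k g w)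
      exact ⟨ε, fun _ _ _ _ => hε⟩
    · exact ⟨0, fun h1 h2 h3 h4 => absurd ⟨h1, h2, h3, h4⟩ h⟩
  choose ε hε using hε
  let Z : Set ((L ≃ₐ[K] L) × Ideal (𝓞 L) × Ideal (𝓞 L)) := Set.univ ×ˢ T ×ˢ T
  have hZ : Z.Finite := Set.finite_univ.prod (hT.prod hT)
  let A : Set (𝓞 L)[X] := (fun z : (L ≃ₐ[K] L) × Ideal (𝓞 L) × Ideal (𝓞 L) =>
    pf z.1 (orderOf z.1) (θ z.1) (ε z.1 z.2.1 z.2.2)) '' Z
  obtain ⟨N, i1, i2, i3, i4, i5, i6, hN⟩ := exists_ext_poly K L A (hZ.image _) (by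
    rintro f ⟨z, -, rfl⟩
    exact pf_monic _ (orderOf_pos _) _ _)
  refine ⟨N, i1, i2, i3, i4, i5, i6, ?_⟩
  intro σ Q Q' hQ hQ' hmQ hmQ' hσQ hσQ' hne
  by_contra hww
  let g : L ≃ₐ[K] L := AlgEquiv.restrictNormalHom L σ
  have hσ : ∀ x : L, σ (algebraMap L N x) = algebraMap L N (g x) := fun x => (res_apply σ x).symm
  have hcm : ∀ P : Ideal (𝓞 N), P.IsMaximal → (P.comap (algebraMap (𝓞 L) (𝓞 N))).IsMaximal := by
    intro P hP
    exact Ideal.isMaximal_comap_of_isIntegral_of_isMaximal P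
  have hmm : ∀ P : Ideal (𝓞 N), (m : 𝓞 N) ∈ P → (m : 𝓞 L) ∈ P.comap (algebraMap (𝓞 L) (𝓞 N)) := by
    intro P hP
    rw [Ideal.mem_comap, map_natCast]
    exact hP
  have hdec : ∀ P : Ideal (𝓞 N), σ ∈ decomp K P →
      g ∈ decomp K (P.comap (algebraMap (𝓞 L) (𝓞 N))) := by
    intro P hP x
    have : algebraMap (𝓞 L) (𝓞 N) (gi g x) = gi σ (algebraMap (𝓞 L) (𝓞 N) x) := by
      apply RingOfIntegers.ext
      exact (hσ x).symm
    rw [Ideal.mem_comap, Ideal.mem_comap, this]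
    exact hP _
  let w := Q.comap (algebraMap (𝓞 L) (𝓞 N))
  let w' := Q'.comap (algebraMap (𝓞 L) (𝓞 N))
  obtain ⟨e1, e2, e3⟩ := hε g w w' (hcm Q hQ) (hcm Q' hQ') hww (hdec Q hσQ)
  obtain ⟨s, hs⟩ := hN _ ⟨(g, w, w'), ⟨Set.mem_univ _, ⟨hcm Q hQ, hmm Q hmQ⟩,
    ⟨hcm Q' hQ', hmm Q' hmQ'⟩⟩, rfl⟩
  have hn2 : 2 ≤ orderOf g := by
    have h1 := orderOf_pos g
    have h2 : orderOf g ≠ 1 := fun h => hne (orderOf_eq_one_iff.mp h)
    omega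
  exact key_false (pow_orderOf_eq_one g) hn2 (hθ g hne) e1 (hcm Q hQ) e2 e3
    (hk g w hne (hcm Q hQ)) hσ hQ hQ' rfl rfl hσQ hσQ' hs

end Pool.Agent.K4H77.SL
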