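import Mathlib
import Pool.Agent.K4H77.SL.Rat
import Pool.Agent.K4H77.SL.Schmidt
import Pool.Agent.K4H74.ST.Fin

/-!
# Hyperelementary subgroups without special elements
-/

set_option autoImplicit false
set_option linter.unusedSectionVars false

namespace Pool.Agent.K4H77.SL

open NumberField NumberField.ComplexEmbedding Pool.Agent.R389 Pool.Agent.K4H74.ST
open scoped Pointwise

lemma IsChar.comp {G H : Type} [Group G] [Group H] {χ : G → ℂ} (h : IsChar χ) (φ : H →* G) :
    IsChar (fun x => χ (φ x)) := by
  obtain ⟨V, i1, i2, i3, ρ, rfl⟩ := h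
  exact ⟨V, i1, i2, i3, ρ.comp φ, rfl⟩

open Pool.Agent.H541R3.ART in
/-- characters induced from hyperelementary subgroups -/
lemma IsChar.ind_hyper {G : Type} [Group G] [Finite G] {U : Subgroup G} (hU : Hyper U) {f : U → ℂ}
    (hf : IsChar f) : IsChar (ind U f) := by
  obtain ⟨V, _, _, _, ρ, rfl⟩ := hf
  have h1 := char_memP _ ρ rfl
  have h2 : AddSubmonoid.closure (Irr U) ≤ ({ carrier := {f : U → ℂ | IsChar (ind U f)}
                                              add_mem' := by
                                                intro a b ha hb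
                                                change IsChar (ind U (a + b))
                                                rw [ind_add]
                                                exact IsChar.add ha hb
                                              zero_mem' := by
                                                change IsChar (ind U (0 : U → ℂ))
                                                rw [ind_zero]
                                                exact IsChar.zero } : AddSubmonoid (U → ℂ)) := by
    rw [AddSubmonoid.closure_le]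
    intro χ hχ
    obtain ⟨W, ψ, -, -, h3⟩ := ind_mono_mem hU hχ
    change IsChar (ind U χ)
    rw [h3]
    exact IsChar.ind_lin W ψ
  exact h2 h1

/-- decomposition elements lift to decomposition elements -/
lemma lift_decomp {F E N : Type} [Field F] [NumberField F] [Field E] [NumberField E] [Field N]
    [NumberField N] [Algebra F E] [Algebra E N] [Algebra F N] [IsScalarTower F E N] [IsGalois F N]
    [IsGalois F E] [IsGalois E N] {P : Ideal (𝓞 E)} (hP : P.IsMaximal) {g : E ≃ₐ[F] E}
    (hg : g ∈ decomp F P) :
    ∃ (h : N ≃ₐ[F] N) (Q : Ideal (𝓞 N)), AlgEquiv.restrictNormalHom E h = g ∧ Q.IsMaximal ∧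
      Q.comap (algebraMap (𝓞 E) (𝓞 N)) = P ∧ h ∈ decomp F Q := by
  classical
  obtain ⟨Q, hQ, hQP⟩ := Ideal.exists_ideal_over_maximal_of_isIntegral (S := 𝓞 N) P (by
    have hinj : Function.Injective (algebraMap (𝓞 E) (𝓞 N)) :=
      FaithfulSMul.algebraMap_injective _ _
    rw [(RingHom.injective_iff_ker_eq_bot _).mp hinj]
    exact bot_le)
  have hfin : FiniteDimensional F N := Module.Finite.of_restrictScalars_finite ℚ F N
  obtain ⟨h0, hh0⟩ := AlgEquiv.restrictNormalHom_surjective (F := F) (K₁ := E) N g
  have hact : ∀ (h : N ≃ₐ[F] N) (x : 𝓞 E), h • (algebraMap (𝓞 E) (𝓞 N) x)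
      = algebraMap (𝓞 E) (𝓞 N) (gi (AlgEquiv.restrictNormalHom E h) x) := by
    intro h x
    apply RingOfIntegers.ext
    change h (algebraMap E N (x : E)) = algebraMap E N (AlgEquiv.restrictNormalHom E h (x : E))
    exact (res_apply h (x : E)).symm
  have hQp : Q.IsPrime := hQ.isPrime
  have hl1 : Q.LiesOver P := ⟨hQP.symm⟩
  have hl2 : (h0 • Q).LiesOver P := by
    constructor
    ext x
    rw [Ideal.under_def, Ideal.mem_comap, Ideal.mem_pointwise_smul_iff_inv_smul_mem, hact, map_inv,
      hh0, ← Ideal.mem_comap, hQP]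
    exact ((decomp_inv hg) x).symm
  have hp2 : (h0 • Q).IsPrime := inferInstance
  obtain ⟨τ, hτ⟩ := Ideal.exists_smul_eq_of_isGaloisGroup P (h0 • Q) Q (N ≃ₐ[E] N)
  refine ⟨τ.restrictScalars F * h0, Q, ?_, hQ, hQP, ?_⟩
  · rw [map_mul, hh0]
    have h1 : AlgEquiv.restrictNormalHom E (τ.restrictScalars F) = 1 := by
      ext x
      apply (algebraMap E N).injective
      rw [res_apply]
      change τ (algebraMap E N x) = algebraMap E N x
      exact τ.commutes x
    rw [h1, one_mul]
  · intro x
    have h1 : gi (τ.restrictScalars F * h0) x = τ • (h0 • x) := by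
      apply RingOfIntegers.ext
      rfl
    rw [h1]
    constructor
    · intro h2
      rw [← hτ, Ideal.smul_mem_pointwise_smul_iff, Ideal.smul_mem_pointwise_smul_iff] at h2
      exact h2
    · intro h2
      rw [← hτ, Ideal.smul_mem_pointwise_smul_iff, Ideal.smul_mem_pointwise_smul_iff]
      exact h2

/-- the invariant is trivial on the characters of the everywhere unramified cyclic extensions of
totally complex fields in which the primes above `m` split completely -/
def TrivSplit {M : Type} [CommGroup M] (A : ArtinInvariant M) (m : ℕ) : Prop :=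
  ∀ (K L : Type) [Field K] [NumberField K] [Field L] [NumberField L] [Algebra K L] [IsGalois K L],
    IsTotallyComplex K → IsCyclic (L ≃ₐ[K] L) →
    (∀ P : Ideal (𝓞 L), P.IsMaximal → ∀ g ∈ inertia K P, g = 1) →
    (∀ P : Ideal (𝓞 L), P.IsMaximal → (m : 𝓞 L) ∈ P → ∀ g ∈ decomp K P, g = 1) →
    ∀ χ : (L ≃ₐ[K] L) → ℂ, IsChar χ → A.val K L χ = 1

/-- the primes which are ramified or divide `m` -/
def Special (K : Type) {L : Type} [Field K] [Field L] [Algebra K L] (m : ℕ) (P : Ideal (𝓞 L)) :
    Prop :=
  (m : 𝓞 L) ∈ P ∨ ∃ g ∈ inertia K P, g ≠ 1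

section split

variable {M : Type} [CommGroup M] {A : ArtinInvariant M} {m : ℕ}

variable {K L N : Type} [Field K] [NumberField K] [Field L] [NumberField L] [Field N]
  [NumberField N] [Algebra K L] [Algebra L N] [Algebra K N] [IsScalarTower K L N] [IsGalois K L]
  [IsGalois K N]

theorem ind_split (hA : TrivSplit A m) (U : Subgroup (N ≃ₐ[K] N)) (hU : Hyper U)
    (hgood : ∀ u ∈ U, ∀ Q : Ideal (𝓞 N), Q.IsMaximal → u ∈ decomp K Q →
      Special K m (Q.comap (algebraMap (𝓞 L) (𝓞 N))) → AlgEquiv.restrictNormalHom L u = 1)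
    {c : L ≃ₐ[K] L} (hcyc : ∀ u ∈ U, AlgEquiv.restrictNormalHom L u ∈ Subgroup.zpowers c)
    (hF : IsTotallyComplex (IntermediateField.fixedField U)) {χ : (L ≃ₐ[K] L) → ℂ}
    (hχ : IsChar χ) :
    ind U (fun u => χ (AlgEquiv.restrictNormalHom L (u : N ≃ₐ[K] N)))
      ∈ TT A (K := K) (L := N) ⊥ := by
  classical
  have hfin : FiniteDimensional K N := Module.Finite.of_restrictScalars_finite ℚ K N
  have hfinL : FiniteDimensional K L := Module.Finite.of_restrictScalars_finite ℚ K L
  let F := IntermediateField.fixedField U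
  let e : U ≃* (N ≃ₐ[F] N) := IntermediateField.subgroupEquivAlgEquiv U
  have he : ∀ h : N ≃ₐ[F] N, (e.symm h : N ≃ₐ[K] N) = h.restrictScalars K := by
    intro h
    obtain ⟨u, rfl⟩ := e.surjective h
    rw [MulEquiv.symm_apply_apply]
    ext x
    rfl
  let res : (N ≃ₐ[K] N) →* (L ≃ₐ[K] L) := AlgEquiv.restrictNormalHom L
  let ρ : (N ≃ₐ[F] N) →* (L ≃ₐ[K] L) := res.comp (U.subtype.comp e.symm.toMonoidHom)
  have hρ : ∀ (h : N ≃ₐ[F] N) (x : L), algebraMap L N (ρ h x) = h (algebraMap L N x) := by
    intro h x
    change algebraMap L N (res (e.symm h : N ≃ₐ[K] N) x) = _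
    rw [he]
    exact res_apply _ x
  have hind : ind U (fun u => χ (res (u : N ≃ₐ[K] N))) = indChar K F N (fun g => χ (ρ g)) :=
    ind_fixed U _
  have hcharU : IsChar (fun g : N ≃ₐ[F] N => χ (ρ g)) := IsChar.comp hχ ρ
  -- the field `E`
  let E : IntermediateField F N := IntermediateField.fixedField ρ.ker
  have hE : IsGalois F E := IsGalois.of_fixedField_normal_subgroup ρ.ker
  let π : (N ≃ₐ[F] N) →* (E ≃ₐ[F] E) := AlgEquiv.restrictNormalHom E
  have hπ : Function.Surjective π := AlgEquiv.restrictNormalHom_surjective N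
  have hfinF : FiniteDimensional F N := Module.Finite.of_restrictScalars_finite ℚ F N
  have hker : ∀ g : N ≃ₐ[F] N, π g = 1 ↔ ρ g = 1 := by
    intro g
    constructor
    · intro h
      have h1 : g ∈ E.fixingSubgroup := by
        rw [IntermediateField.mem_fixingSubgroup_iff]
        intro x hx
        have h2 := res_apply (L := E) g ⟨x, hx⟩
        change algebraMap E N (π g ⟨x, hx⟩) = _ at h2
        rw [h] at h2
        exact h2.symm
      rw [IntermediateField.fixingSubgroup_fixedField] at h1
      exact h1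
    · intro h
      ext x
      have h2 := res_apply (L := E) g x
      change algebraMap E N (π g x) = _ at h2
      change ((π g x : E) : N) = (x : N)
      exact h2.trans (x.2 ⟨g, h⟩)
  have hle : π.ker ≤ ρ.ker := fun g hg => (hker g).mp hg
  let ρ' : (E ≃ₐ[F] E) →* (L ≃ₐ[K] L) := π.liftOfSurjective hπ ⟨ρ, hle⟩
  have hρ' : ∀ g, ρ' (π g) = ρ g := fun g => MonoidHom.liftOfRightInverse_comp_apply _ _ _ ⟨ρ, hle⟩ g
  have hinj : Function.Injective ρ' := by
    rw [injective_iff_map_eq_one]
    intro a ha
    obtain ⟨g, rfl⟩ := hπ a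
    rw [hρ'] at ha
    exact (hker g).mpr ha
  have hUmem : ∀ h : N ≃ₐ[F] N, (e.symm h : N ≃ₐ[K] N) ∈ U := fun h => (e.symm h).2
  have hdec : ∀ (h : N ≃ₐ[F] N) (Q : Ideal (𝓞 N)), h ∈ decomp F Q →
      (e.symm h : N ≃ₐ[K] N) ∈ decomp K Q := by
    intro h Q hh x
    have h1 : gi (e.symm h : N ≃ₐ[K] N) x = gi h x := by
      apply RingOfIntegers.ext
      rw [he]
      rfl
    rw [h1]
    exact hh x
  -- the triviality of the decomposition groups
  have hone : ∀ (P : Ideal (𝓞 E)), P.IsMaximal → ∀ g ∈ decomp F P,
      ((m : 𝓞 E) ∈ P ∨ g ∈ inertia F P) → g = 1 := by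
    intro P hP g hg hcase
    obtain ⟨h, Q, hhg, hQ, hQP, hhQ⟩ := lift_decomp (N := N) hP hg
    let w := Q.comap (algebraMap (𝓞 L) (𝓞 N))
    have hmain : Special K m w → g = 1 := by
      intro hsp
      have h1 := hgood _ (hUmem h) Q hQ (hdec h Q hhQ) hsp
      have h2 : ρ h = 1 := h1
      have h3 : π h = 1 := (hker h).mpr h2
      rw [← hhg]
      exact h3
    rcases hcase with hm | hi
    · apply hmain
      left
      rw [Ideal.mem_comap, map_natCast]
      have h1 : algebraMap (𝓞 E) (𝓞 N) (m : 𝓞 E) ∈ Q := by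
        rw [← Ideal.mem_comap, hQP]
        exact hm
      rwa [map_natCast] at h1
    · by_cases hsp : Special K m w
      · exact hmain hsp
      have h1 : ρ h ∈ inertia K w := by
        intro x
        have hxE : algebraMap L N (x : L) ∈ E := by
          rintro ⟨r, hr⟩
          change r (algebraMap L N (x : L)) = _
          rw [← hρ, (show ρ r = 1 from hr)]
          rfl
        have hyi : IsIntegral ℤ (⟨algebraMap L N (x : L), hxE⟩ : E) := by
          have h4 : Function.Injective (algebraMap E N) := (algebraMap E N).injective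
          rw [← isIntegral_algebraMap_iff (R := ℤ) h4]
          exact (RingOfIntegers.isIntegral_coe (algebraMap (𝓞 L) (𝓞 N) x))
        let y : 𝓞 E := ⟨⟨algebraMap L N (x : L), hxE⟩, hyi⟩
        have h2 := hi y
        have h3 : algebraMap (𝓞 E) (𝓞 N) (gi g y - y) ∈ Q := by
          rw [← Ideal.mem_comap, hQP]
          exact h2
        rw [Ideal.mem_comap]
        have h5 : algebraMap (𝓞 L) (𝓞 N) (gi (ρ h) x - x) = algebraMap (𝓞 E) (𝓞 N) (gi g y - y) := by
          rw [map_sub, map_sub]
          have h6 : algebraMap (𝓞 L) (𝓞 N) x = algebraMap (𝓞 E) (𝓞 N) y := by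
            apply RingOfIntegers.ext
            rfl
          have h7 : algebraMap (𝓞 L) (𝓞 N) (gi (ρ h) x) = algebraMap (𝓞 E) (𝓞 N) (gi g y) := by
            apply RingOfIntegers.ext
            change algebraMap L N (ρ h (x : L)) = algebraMap E N (g ((y : 𝓞 E) : E))
            rw [hρ, ← hhg, res_apply]
            rfl
          rw [h6, h7]
        rw [h5]
        exact h3
      have h2 : ρ h = 1 := by
        by_contra hne
        exact hsp (Or.inr ⟨_, h1, hne⟩)
      have h3 : π h = 1 := (hker h).mpr h2
      rw [← hhg]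
      exact h3
  have hcycE : IsCyclic (E ≃ₐ[F] E) := by
    have hrange : ∀ a, ρ' a ∈ Subgroup.zpowers c := by
      intro a
      obtain ⟨g, rfl⟩ := hπ a
      rw [hρ']
      exact hcyc _ (hUmem g)
    exact isCyclic_of_injective (ρ'.codRestrict (Subgroup.zpowers c) hrange) (fun a b hab => by
      apply hinj
      exact congrArg Subtype.val hab)
  have hval : A.val F E (fun g => χ (ρ' g)) = 1 := by
    refine hA F E hF hcycE ?_ ?_ _ (IsChar.comp hχ ρ')
    · intro P hP g hg
      exact hone P hP g (inertia_sub P hg) (Or.inr hg)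
    · intro P hP hm g hg
      exact hone P hP g hg (Or.inl hm)
  have hval2 : A.val F N (fun g => χ (ρ g)) = 1 := by
    rw [← hval, ← A.val_infl F E N _ (IsChar.comp hχ ρ')]
    congr 1
    funext g
    rw [← hρ']
  have hval3 : A.val K N (indChar K F N (fun g => χ (ρ g))) = 1 := by
    rw [A.val_ind K F N _ hcharU]
    exact hval2
  have hfinal : A.val K N (ind U (fun u => χ (res (u : N ≃ₐ[K] N)))) = 1 := by
    rw [hind]
    exact hval3
  have hch : IsChar (ind U (fun u => χ (res (u : N ≃ₐ[K] N)))) :=
    IsChar.ind_hyper hU (IsChar.comp hχ (res.comp U.subtype))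
  rw [mem_TT_char A hch, Subgroup.mem_bot]
  exact hfinal

end split

end Pool.Agent.K4H77.SL
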