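import Mathlib
import Pool.Agent.K4H77.SL.Asm

/-!
# The local nature of an inductive invariant which is trivial on split unramified extensions
-/

set_option autoImplicit false
set_option linter.unusedSectionVars false

namespace Pool.Agent.K4H77.SL

open NumberField NumberField.ComplexEmbedding Pool.Agent.R389 Pool.Agent.K4H74.ST
open Pool.Agent.H302R3 Pool.Agent.H302R2
open scoped Pointwise

section grp

lemma tr_one {G : Type} [Group G] [Finite G] (H : Subgroup G) (K : Subgroup H) :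
    tr H K (fun _ => (1 : ℂ)) = fun _ => 1 := by
  funext x
  rfl

/-- rational functions on a cyclic quotient of a subgroup -/
lemma rat_case {G Q : Type} [Group G] [Finite G] [Group Q] [Finite Q] (S : AddSubgroup (G → ℂ))
    (hS : ∀ V : Subgroup G, ind V (fun _ => (1 : ℂ)) ∈ S) (U : Subgroup G) (π : U →* Q) (c : Q)
    (hc : ∀ u, π u ∈ Subgroup.zpowers c) (f : U → ℂ) (z : Q → ℤ) (hz : ∀ u, f u = z (π u))
    (hzz : ∀ u v, Subgroup.zpowers (π u) = Subgroup.zpowers (π v) → z (π u) = z (π v)) :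
    Nat.card π.range • ind U f ∈ S := by
  classical
  have hcomm : IsMulCommutative π.range := by
    refine ⟨⟨?_⟩⟩
    rintro ⟨a, u, rfl⟩ ⟨b, v, rfl⟩
    apply Subtype.ext
    obtain ⟨i, hi⟩ := hc u
    obtain ⟨j, hj⟩ := hc v
    change π u * π v = π v * π u
    simp only at hi hj
    rw [← hi, ← hj, ← zpow_add, ← zpow_add, add_comm]
  have h1 := cyc_span π.rangeRestrict π.rangeRestrict_surjective (fun x => z x) (by
    rintro ⟨a, u, rfl⟩ ⟨b, v, rfl⟩ hab
    apply hzz
    have h2 := congrArg (Subgroup.map π.range.subtype) hab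
    rw [MonoidHom.map_zpowers, MonoidHom.map_zpowers] at h2
    exact h2)
  have h2 : (fun u => ((z (π.rangeRestrict u) : ℤ) : ℂ)) = f := by
    funext u
    exact (hz u).symm
  rw [h2] at h1
  have h3 : AddSubgroup.closure {f : U → ℂ | ∃ V : Subgroup U, f = ind V (fun _ => 1)}
      ≤ S.comap (indHom U) := by
    rw [AddSubgroup.closure_le]
    rintro _ ⟨V, rfl⟩
    rw [SetLike.mem_coe, AddSubgroup.mem_comap, indHom_apply, ind_ind, tr_one]
    exact hS _
  have h4 := h3 h1
  rwa [AddSubgroup.mem_comap, map_nsmul, indHom_apply] at h4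

lemma pow_self {G : Type} [Group G] {x : G} {n : ℕ} (h : n.Coprime (orderOf x)) :
    x ∈ Subgroup.zpowers (x ^ n) := by
  obtain ⟨m, hm⟩ := exists_pow_eq_self_of_coprime h
  exact ⟨m, by simpa using hm⟩

lemma cyclic_mem {C : Type} [Group C] [IsCyclic C] [Finite C] {a b : C} (h : b ^ orderOf a = 1) :
    b ∈ Subgroup.zpowers a := by
  classical
  have : Fintype C := Fintype.ofFinite C
  have h1 := IsCyclic.card_pow_eq_one_le (α := C) (n := orderOf a) (orderOf_pos a)
  let T : Finset C := Finset.univ.filter (fun x => x ∈ Subgroup.zpowers a)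
  have hT : T.card = orderOf a := by
    rw [← Nat.card_zpowers, ← Fintype.card_subtype, ← Nat.card_eq_fintype_card]
  have h2 : T ⊆ Finset.univ.filter (fun x => x ^ orderOf a = 1) := by
    intro x hx
    rw [Finset.mem_filter] at hx ⊢
    refine ⟨Finset.mem_univ _, ?_⟩
    obtain ⟨k, hk⟩ := hx.2
    simp only at hk
    rw [← hk, ← zpow_natCast, ← zpow_mul, mul_comm, zpow_mul, zpow_natCast, pow_orderOf_eq_one,
      one_zpow]
  have h3 : T = Finset.univ.filter (fun x => x ^ orderOf a = 1) :=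
    Finset.eq_of_subset_of_card_le h2 (by rw [hT]; exact h1)
  have h4 : b ∈ T := by
    rw [h3, Finset.mem_filter]
    exact ⟨Finset.mem_univ _, h⟩
  exact (Finset.mem_filter.mp h4).2

/-- an element of a normal cyclic subgroup lies in the group generated by each conjugate -/
lemma mem_zpowers_conj {G : Type} [Group G] [Finite G] {c a x : G} (ha : a ∈ Subgroup.zpowers c)
    (hxa : x * a * x⁻¹ ∈ Subgroup.zpowers c) : a ∈ Subgroup.zpowers (x * a * x⁻¹) := by
  classical
  have h1 : orderOf (x * a * x⁻¹) = orderOf a := by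
    have := orderOf_injective (MulAut.conj x).toMonoidHom (MulAut.conj x).injective a
    exact this
  have h2 : (⟨a, ha⟩ : Subgroup.zpowers c)
      ∈ Subgroup.zpowers (⟨x * a * x⁻¹, hxa⟩ : Subgroup.zpowers c) := by
    apply cyclic_mem
    rw [Subgroup.orderOf_mk, h1]
    apply Subtype.ext
    rw [Subgroup.coe_pow]
    exact pow_orderOf_eq_one a
  obtain ⟨k, hk⟩ := h2
  exact ⟨k, congrArg Subtype.val hk⟩

/-- values at involutions are rational -/
lemma rat_invol {G : Type} [Group G] [Finite G] {χ : G → ℂ} (hχ : IsHeilbronn χ) {g : G}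
    (hg : g * g = 1) : ∃ q : ℚ, χ g = q := by
  have hn0 : 0 < orderOf g := orderOf_pos g
  let ζ : ℂ := Complex.exp (2 * Real.pi * Complex.I / (orderOf g : ℂ))
  have hζ : IsPrimitiveRoot ζ (orderOf g) := Complex.isPrimitiveRoot_exp _ hn0.ne'
  obtain ⟨P, hP⟩ := expand_cyc hχ g hζ
  have h1 := hP 1
  rw [pow_one, pow_one] at h1
  have h2 : orderOf g ∣ 2 := orderOf_dvd_of_pow_eq_one (by rw [pow_two, hg])
  have h3 : ζ * ζ = 1 := by
    obtain ⟨k, hk⟩ := h2
    rw [← pow_two, hk, pow_mul, hζ.pow_eq_one, one_pow]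
  rcases mul_self_eq_one_iff.mp h3 with h4 | h4
  · refine ⟨(P.eval 1 : ℤ), ?_⟩
    rw [h1, h4]
    have : Polynomial.aeval ((algebraMap ℤ ℂ) 1) P = algebraMap ℤ ℂ (P.eval 1) := by
      rw [Polynomial.aeval_algebraMap_apply]
      simp
    rw [map_one] at this
    rw [this]
    simp
  · refine ⟨(P.eval (-1) : ℤ), ?_⟩
    rw [h1, h4]
    have : Polynomial.aeval ((algebraMap ℤ ℂ) (-1)) P = algebraMap ℤ ℂ (P.eval (-1)) := by
      rw [Polynomial.aeval_algebraMap_apply]
      simp
    rw [map_neg, map_one] at this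
    rw [this]
    simp

end grp

section val

variable {M : Type} [CommGroup M] (A : ArtinInvariant M)
variable {K L : Type} [Field K] [NumberField K] [Field L] [NumberField L] [Algebra K L]
  [IsGalois K L]

lemma IsChar.heil {χ : (L ≃ₐ[K] L) → ℂ} [Finite (L ≃ₐ[K] L)] (h : IsChar χ) : IsHeilbronn χ := by
  obtain ⟨V, _, _, _, ρ, rfl⟩ := h
  exact heil_of_closure' (char_memP _ ρ rfl)

lemma Val.nsmul {f : (L ≃ₐ[K] L) → ℂ} {v : M} (h : Val A K L f v) (n : ℕ) :
    Val A K L (n • f) (v ^ n) := by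
  induction n with
  | zero => rw [zero_smul, pow_zero]; exact Val.zero A
  | succ n ih => rw [succ_nsmul, pow_succ]; exact ih.add A h

lemma Val.zsmul {f : (L ≃ₐ[K] L) → ℂ} {v : M} (h : Val A K L f v) (n : ℤ) :
    Val A K L (n • f) (v ^ n) := by
  cases n with
  | ofNat n =>
    rw [Int.ofNat_eq_natCast, natCast_zsmul, zpow_natCast]
    exact Val.nsmul A h n
  | negSucc n =>
    rw [negSucc_zsmul, zpow_negSucc]
    exact (Val.nsmul A h (n + 1)).neg A

variable {A}

lemma ind_one_mem (hR : TrivOne A) (V : Subgroup (L ≃ₐ[K] L)) :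
    ind V (fun _ => (1 : ℂ)) ∈ TT A (K := K) (L := L) ⊥ := by
  have hfin : FiniteDimensional K L := Module.Finite.of_restrictScalars_finite ℚ K L
  have h1 : ind V (fun _ => (1 : ℂ)) = ind V (fun h => (((1 : V →* ℂˣ) h : ℂˣ) : ℂ)) := by
    congr 1
  have h2 : ind V (fun h => (((1 : V →* ℂˣ) h : ℂˣ) : ℂ))
      = indChar K (IntermediateField.fixedField V) L (lc 1) := ind_fixed V _
  rw [h1, mem_TT_char A (IsChar.ind_lin V 1), Subgroup.mem_bot, h2,
    A.val_ind K (IntermediateField.fixedField V) L (lc 1) (IsChar.lc 1)]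
  exact val_one hR

/-- the ramified primes contain a common positive integer -/
lemma exists_ram (K L : Type) [Field K] [NumberField K] [Field L] [NumberField L] [Algebra K L]
    [IsGalois K L] : ∃ m : ℕ, m ≠ 0 ∧ ∀ P : Ideal (𝓞 L), (∃ g ∈ inertia K P, g ≠ 1) →
      (m : 𝓞 L) ∈ P := by
  classical
  have hfin : FiniteDimensional K L := Module.Finite.of_restrictScalars_finite ℚ K L
  have hθ : ∀ g : L ≃ₐ[K] L, ∃ δ : 𝓞 L, δ ≠ 0 ∧ (g ≠ 1 → ∀ P : Ideal (𝓞 L), g ∈ inertia K P →
      δ ∈ P) := by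
    intro g
    by_cases hg : g = 1
    · exact ⟨1, one_ne_zero, fun h => absurd hg h⟩
    · obtain ⟨θ, h⟩ := exists_moved hg
      exact ⟨gi g θ - θ, sub_ne_zero.mpr h, fun _ P hP => hP θ⟩
  choose δ hδ hδ' using hθ
  let D : 𝓞 L := ∏ g : L ≃ₐ[K] L, δ g
  have hD : D ≠ 0 := Finset.prod_ne_zero_iff.mpr fun g _ => hδ g
  refine ⟨Ideal.absNorm (Ideal.span {D}), ?_, ?_⟩
  · rw [Ne, Ideal.absNorm_eq_zero_iff, Ideal.span_singleton_eq_bot]
    exact hD
  · rintro P ⟨g, hg, hg1⟩
    have h1 := Ideal.absNorm_mem (Ideal.span {D})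
    have h2 : Ideal.span {D} ≤ P := by
      rw [Ideal.span_singleton_le_iff_mem]
      have h3 : D = δ g * ∏ h ∈ Finset.univ.erase g, δ h :=
        (Finset.mul_prod_erase _ _ (Finset.mem_univ g)).symm
      rw [h3]
      exact P.mul_mem_right _ (hδ' g hg1 P hg)
    exact h2 h1

end val

end Pool.Agent.K4H77.SL
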