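import Mathlib
import Pool.Agent.K4H77.SL.Main

/-!
# The local nature of an inductive invariant: the main theorem
-/

set_option autoImplicit false
set_option linter.unusedSectionVars false

namespace Pool.Agent.K4H77.SL

open NumberField NumberField.ComplexEmbedding Pool.Agent.R389 Pool.Agent.K4H74.ST
open Pool.Agent.H302R3 Pool.Agent.H302R2
open scoped Pointwise

/-- the extension in which centralisers of complex conjugations are small and no automorphism
preserves two primes lying over different primes -/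
theorem exists_both (K L : Type) [Field K] [NumberField K] [Field L] [NumberField L] [Algebra K L]
    [IsGalois K L] {m : ℕ} (hm : m ≠ 0) :
    ∃ (N : Type) (_ : Field N) (_ : NumberField N) (_ : Algebra K N) (_ : Algebra L N)
      (_ : IsScalarTower K L N) (_ : IsGalois K N),
      (∃ j : N, j * j = -1) ∧
      (∀ c ∈ CC K N, ∀ g : N ≃ₐ[K] N, g * c = c * g →
        AlgEquiv.restrictNormalHom L g = 1 ∨
          AlgEquiv.restrictNormalHom L g = AlgEquiv.restrictNormalHom L c) ∧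
      ∀ (σ : N ≃ₐ[K] N) (Q Q' : Ideal (𝓞 N)), Q.IsMaximal → Q'.IsMaximal → (m : 𝓞 N) ∈ Q →
        (m : 𝓞 N) ∈ Q' → σ ∈ decomp K Q → σ ∈ decomp K Q' →
        AlgEquiv.restrictNormalHom L σ ≠ 1 →
        Q.comap (algebraMap (𝓞 L) (𝓞 N)) = Q'.comap (algebraMap (𝓞 L) (𝓞 N)) := by
  obtain ⟨N₁, a1, a2, a3, a4, a5, a6, ⟨j, hj⟩, hN₁⟩ := exists_comm K L
  obtain ⟨N, i1, i2, i3, i4, i5, i6, hN⟩ := exists_schmidt K N₁ hm
  let iLN : L →+* N := (algebraMap N₁ N).comp (algebraMap L N₁)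
  let _ : Algebra L N := iLN.toAlgebra
  have hLN : ∀ x, algebraMap L N x = algebraMap N₁ N (algebraMap L N₁ x) := fun x => rfl
  have hKLN : IsScalarTower K L N := by
    refine IsScalarTower.of_algebraMap_eq fun x => ?_
    rw [hLN, ← IsScalarTower.algebraMap_apply K L N₁, ← IsScalarTower.algebraMap_apply K N₁ N]
  have hres : ∀ g : N ≃ₐ[K] N, AlgEquiv.restrictNormalHom L (AlgEquiv.restrictNormalHom N₁ g)
      = AlgEquiv.restrictNormalHom L g := by
    intro g
    ext x
    apply (algebraMap L N).injective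
    rw [res_apply, hLN, hLN]
    have h1 := res_apply (L := L) (AlgEquiv.restrictNormalHom N₁ g) x
    change algebraMap N₁ N (algebraMap L N₁ (AlgEquiv.restrictNormalHom L
      (AlgEquiv.restrictNormalHom N₁ g) x)) = _
    rw [h1, res_apply]
  refine ⟨N, i1, i2, i3, inferInstance, hKLN, i6, ⟨algebraMap N₁ N j, ?_⟩, ?_, ?_⟩
  · rw [← map_mul, hj, map_neg, map_one]
  · intro c hc g hg
    have h1 := hN₁ (AlgEquiv.restrictNormalHom N₁ c) (CC_res hc) (AlgEquiv.restrictNormalHom N₁ g)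
      (by rw [← map_mul, hg, map_mul])
    rw [hres, hres] at h1
    exact h1
  · intro σ Q Q' hQ hQ' hm1 hm2 hs1 hs2 hne
    have h1 := hN σ Q Q' hQ hQ' hm1 hm2 hs1 hs2 (by
      intro h
      apply hne
      rw [← hres, h, map_one])
    have h2 : algebraMap (𝓞 L) (𝓞 N) = (algebraMap (𝓞 N₁) (𝓞 N)).comp (algebraMap (𝓞 L) (𝓞 N₁)) := by
      apply RingHom.ext
      intro x
      apply RingOfIntegers.ext
      rfl
    rw [h2, ← Ideal.comap_comap, ← Ideal.comap_comap, h1]

variable {M : Type} [CommGroup M] {A : ArtinInvariant M} {m : ℕ}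

section

variable {K L N : Type} [Field K] [NumberField K] [Field L] [NumberField L] [Field N]
  [NumberField N] [Algebra K L] [Algebra L N] [Algebra K N] [IsScalarTower K L N] [IsGalois K L]
  [IsGalois K N]

/-- one hyperelementary subgroup -/
theorem one_subgroup (hR : TrivOne A) (hA : TrivSplit A m) {m' : ℕ}
    (hm' : ∀ P : Ideal (𝓞 L), Special K m P → (m' : 𝓞 L) ∈ P)
    (hj : ∃ j : N, j * j = -1)
    (hC : ∀ c ∈ CC K N, ∀ g : N ≃ₐ[K] N, g * c = c * g →
        AlgEquiv.restrictNormalHom L g = 1 ∨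
          AlgEquiv.restrictNormalHom L g = AlgEquiv.restrictNormalHom L c)
    (hS : ∀ (σ : N ≃ₐ[K] N) (Q Q' : Ideal (𝓞 N)), Q.IsMaximal → Q'.IsMaximal → (m' : 𝓞 N) ∈ Q →
        (m' : 𝓞 N) ∈ Q' → σ ∈ decomp K Q → σ ∈ decomp K Q' →
        AlgEquiv.restrictNormalHom L σ ≠ 1 →
        Q.comap (algebraMap (𝓞 L) (𝓞 N)) = Q'.comap (algebraMap (𝓞 L) (𝓞 N)))
    {l : ℕ} (hl : l.Prime) (hlK : ¬ l ∣ Module.finrank K L) (hl2 : l = 2 → IsTotallyComplex K)
    {χ χ' : (L ≃ₐ[K] L) → ℂ} (hχ : IsChar χ) (hχ' : IsChar χ')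
    (hrat : ∀ P : Ideal (𝓞 L), P.IsMaximal → Special K m P → ∀ g ∈ decomp K P,
      ∃ q : ℚ, χ g - χ' g = q)
    (U : Subgroup (N ≃ₐ[K] N)) (hU : HypP l U) :
    Module.finrank K L • ind U (fun u => χ (AlgEquiv.restrictNormalHom L (u : N ≃ₐ[K] N))
      - χ' (AlgEquiv.restrictNormalHom L (u : N ≃ₐ[K] N))) ∈ TT A (K := K) (L := N) ⊥ := by
  classical
  have hfin : FiniteDimensional K N := Module.Finite.of_restrictScalars_finite ℚ K N
  have hfinL : FiniteDimensional K L := Module.Finite.of_restrictScalars_finite ℚ K L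
  let res : (N ≃ₐ[K] N) →* (L ≃ₐ[K] L) := AlgEquiv.restrictNormalHom L
  have hcard : Nat.card (L ≃ₐ[K] L) = Module.finrank K L := IsGalois.card_aut_eq_finrank K L
  obtain ⟨c, hcop, hcn, hpw⟩ := id hU
  have hcopL : ∀ (g : L ≃ₐ[K] L) (k : ℕ), (l ^ k).Coprime (orderOf g) := by
    intro g k
    apply Nat.Coprime.pow_left
    rw [Nat.Prime.coprime_iff_not_dvd hl]
    intro h
    apply hlK
    rw [← hcard]
    exact h.trans (orderOf_dvd_natCard g)
  have hcyc : ∀ u ∈ U, res u ∈ Subgroup.zpowers (res (c : N ≃ₐ[K] N)) := by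
    intro u hu
    obtain ⟨k, hk⟩ := hpw ⟨u, hu⟩
    obtain ⟨i, hi⟩ := hk
    have h1 : (c : N ≃ₐ[K] N) ^ i = u ^ (l ^ k) := congrArg Subtype.val hi
    have h2 := pow_self (hcopL (res u) k)
    rw [← map_pow, ← h1, map_zpow] at h2
    exact Subgroup.zpowers_le.mpr (Subgroup.zpow_mem_zpowers _ _) h2
  have hHyper : Hyper U := ⟨l, hl, c, hcop, hcn, hpw⟩
  -- the rational case
  have hratcase : (∀ u : U, ∃ q : ℚ, χ (res u) - χ' (res u) = q) →
      Module.finrank K L • ind U (fun u => χ (res (u : N ≃ₐ[K] N)) - χ' (res (u : N ≃ₐ[K] N)))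
        ∈ TT A (K := K) (L := N) ⊥ := by
    intro hq
    let π : U →* (L ≃ₐ[K] L) := res.comp U.subtype
    have h1 : ∀ u : U, ∃ z : ℤ, ∀ h : L ≃ₐ[K] L, Subgroup.zpowers h = Subgroup.zpowers (π u) →
        χ h - χ' h = z := fun u =>
      rat_int (IsChar.heil hχ) (IsChar.heil hχ') (π u) (hq u)
    let z : (L ≃ₐ[K] L) → ℤ := fun y => if h : ∃ z : ℤ, χ y - χ' y = z then h.choose else 0
    have hz : ∀ y, (∃ z : ℤ, χ y - χ' y = z) → χ y - χ' y = z y := by
      intro y hy
      simp only [z, dif_pos hy]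
      exact hy.choose_spec
    have h2 := rat_case (TT A (K := K) (L := N) ⊥) (ind_one_mem hR) U π (res c)
      (fun u => hcyc u u.2) (fun u => χ (res (u : N ≃ₐ[K] N)) - χ' (res (u : N ≃ₐ[K] N))) z
      (fun u => by
        obtain ⟨y, hy⟩ := h1 u
        exact hz _ ⟨y, hy _ rfl⟩)
      (fun u v huv => by
        obtain ⟨y, hy⟩ := h1 v
        have e1 := hz (π u) ⟨y, hy _ huv⟩
        have e2 := hz (π v) ⟨y, hy _ rfl⟩
        rw [hy _ huv] at e1
        rw [hy _ rfl] at e2
        have e3 : ((z (π u) : ℤ) : ℂ) = (z (π v) : ℤ) := by rw [← e1, ← e2]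
        exact_mod_cast e3)
    have h3 : Nat.card π.range ∣ Module.finrank K L := by
      rw [← hcard]
      exact Subgroup.card_subgroup_dvd_card _
    obtain ⟨k, hk⟩ := h3
    rw [hk, mul_comm, mul_smul]
    exact nsmul_mem h2 k
  by_cases hcase : ∃ u ∈ U, ∃ Q : Ideal (𝓞 N), Q.IsMaximal ∧ u ∈ decomp K Q ∧
      Special K m (Q.comap (algebraMap (𝓞 L) (𝓞 N))) ∧ res u ≠ 1
  · obtain ⟨u, hu, Q, hQ, huQ, hsp, hu1⟩ := hcase
    have hwm : (Q.comap (algebraMap (𝓞 L) (𝓞 N))).IsMaximal :=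
      Ideal.isMaximal_comap_of_isIntegral_of_isMaximal Q
    obtain ⟨k, hk⟩ := hpw ⟨u, hu⟩
    let a : N ≃ₐ[K] N := u ^ (l ^ k)
    have haQ : a ∈ decomp K Q := decomp_pow huQ _
    have haU : a ∈ U := U.pow_mem hu _
    have ha1 : res a ≠ 1 := by
      intro h
      apply hu1
      have h1 : res u ^ (l ^ k) = 1 := by rw [← map_pow]; exact h
      have h2 := pow_self (hcopL (res u) k)
      rw [h1, Subgroup.zpowers_one_eq_bot, Subgroup.mem_bot] at h2
      exact h2
    have hmQ : (m' : 𝓞 N) ∈ Q := by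
      have h1 := hm' _ hsp
      rw [Ideal.mem_comap, map_natCast] at h1
      exact h1
    have hall : ∀ x ∈ U, res x ∈ decomp K (Q.comap (algebraMap (𝓞 L) (𝓞 N))) := by
      intro x hx
      have h1 : (⟨a, haU⟩ : U) ∈ Subgroup.zpowers (⟨x, hx⟩ * ⟨a, haU⟩ * (⟨x, hx⟩ : U)⁻¹) := by
        apply mem_zpowers_conj (c := c)
        · exact hk
        · exact conj_zpowers hcn ⟨x, hx⟩ hk
      obtain ⟨i, hi⟩ := h1
      have h2 : (x * a * x⁻¹) ^ i = a := congrArg Subtype.val hi
      have h3 : x * a * x⁻¹ ∈ decomp K (x • Q) := by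
        intro y
        have e1 : gi (x * a * x⁻¹) y = x • gi a (x⁻¹ • y) := by
          apply RingOfIntegers.ext
          rfl
        rw [e1, Ideal.smul_mem_pointwise_smul_iff, haQ, Ideal.mem_pointwise_smul_iff_inv_smul_mem]
      have h4 : a ∈ decomp K (x • Q) := by
        rw [← h2]
        exact decomp_zpow h3 i
      have hxQ : (x • Q).IsMaximal := by
        have h5 : x • Q = Q.comap (gi x⁻¹) := by
          ext y
          rw [Ideal.mem_pointwise_smul_iff_inv_smul_mem, Ideal.mem_comap]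
          rfl
        rw [h5]
        apply Ideal.comap_isMaximal_of_surjective
        intro y
        refine ⟨gi x y, ?_⟩
        rw [← gi_mul, inv_mul_cancel, gi_one]
      have hmxQ : (m' : 𝓞 N) ∈ x • Q := by
        rw [Ideal.mem_pointwise_smul_iff_inv_smul_mem]
        have e1 : x⁻¹ • (m' : 𝓞 N) = (m' : 𝓞 N) := map_natCast (gi x⁻¹) m'
        rw [e1]
        exact hmQ
      have h5 := hS a Q (x • Q) hQ hxQ hmQ hmxQ haQ h4 ha1
      intro y
      have e1 : algebraMap (𝓞 L) (𝓞 N) (gi (res x) y) = x • algebraMap (𝓞 L) (𝓞 N) y := by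
        apply RingOfIntegers.ext
        exact res_apply x (y : L)
      conv_lhs => rw [h5]
      rw [Ideal.mem_comap, Ideal.mem_comap, e1, Ideal.smul_mem_pointwise_smul_iff]
    exact hratcase (fun x => hrat _ hwm hsp _ (hall x x.2))
  push Not at hcase
  by_cases hF : IsTotallyComplex (IntermediateField.fixedField U)
  · have h1 : ∀ {χ : (L ≃ₐ[K] L) → ℂ}, IsChar χ → ind U (fun u => χ (res (u : N ≃ₐ[K] N)))
        ∈ TT A (K := K) (L := N) ⊥ := fun hχ =>
      ind_split hA U hHyper (fun u hu Q hQ huQ hsp => hcase u hu Q hQ huQ hsp) hcyc hF hχ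
    have h2 : ind U (fun u => χ (res (u : N ≃ₐ[K] N)) - χ' (res (u : N ≃ₐ[K] N)))
        = ind U (fun u => χ (res (u : N ≃ₐ[K] N))) - ind U (fun u => χ' (res (u : N ≃ₐ[K] N))) := by
      rw [← ind_sub]
      rfl
    rw [h2]
    exact nsmul_mem (sub_mem (h1 hχ) (h1 hχ')) _
  · have hl2' : l ≠ 2 := by
      intro h
      have hK := hl2 h
      exact hF (isTotallyComplex_of_algebra K _)
    have hlodd : Odd l := hl.odd_of_ne_two hl2'
    have hex : ∃ d ∈ CC K N, d ∈ U := by
      by_contra hcon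
      push Not at hcon
      exact hF (fixed_complex U hcon)
    obtain ⟨d, hd, hdU⟩ := hex
    have hdd : d * d = 1 := by
      obtain ⟨φ, hφ⟩ := hd
      exact isConj_sq hφ
    have hd1 : d ≠ 1 := by
      obtain ⟨j, hj⟩ := hj
      obtain ⟨φ, hφ⟩ := hd
      intro h
      have h1 : d j = - j := by
        refine sqrt_neg hφ ?_ ?_
        · rw [hj, map_neg, map_one]; simp
        · rw [hj, map_neg, map_one]; simp
      rw [h] at h1
      have h3 : j = 0 := self_eq_neg.mp h1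
      rw [h3, mul_zero] at hj
      exact one_ne_zero (neg_eq_zero.mp hj.symm)
    have hdc : (⟨d, hdU⟩ : U) ∈ Subgroup.zpowers c := by
      obtain ⟨k, hk⟩ := hpw ⟨d, hdU⟩
      have h1 : (⟨d, hdU⟩ : U) ^ (l ^ k) = ⟨d, hdU⟩ := by
        apply Subtype.ext
        rw [Subgroup.coe_pow]
        change d ^ (l ^ k) = d
        obtain ⟨j, hj⟩ := (hlodd.pow : Odd (l ^ k))
        rw [hj, pow_succ, pow_mul, pow_two, hdd, one_pow, one_mul]
      rwa [h1] at hk
    have hcomm : ∀ x ∈ U, x * d = d * x := by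
      intro x hx
      have h1 : (⟨d, hdU⟩ : U) ∈ Subgroup.zpowers (⟨x, hx⟩ * ⟨d, hdU⟩ * (⟨x, hx⟩ : U)⁻¹) :=
        mem_zpowers_conj (c := c) hdc (conj_zpowers hcn ⟨x, hx⟩ hdc)
      obtain ⟨i, hi⟩ := h1
      have h2 : (x * d * x⁻¹) ^ i = d := congrArg Subtype.val hi
      have h3 : (x * d * x⁻¹) * (x * d * x⁻¹) = 1 := by
        have : x * d * x⁻¹ * (x * d * x⁻¹) = x * (d * d) * x⁻¹ := by group
        rw [this, hdd]; group
      have h4 : x * d * x⁻¹ = d := by
        rcases Int.even_or_odd' i with ⟨t, rfl | rfl⟩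
        · exfalso
          apply hd1
          rw [← h2, zpow_mul]
          have : (x * d * x⁻¹) ^ (2 : ℤ) = 1 := by
            have := pow_two (x * d * x⁻¹)
            rw [h3] at this
            exact_mod_cast this
          rw [this, one_zpow]
        · have : (x * d * x⁻¹) ^ (2 : ℤ) = 1 := by
            have := pow_two (x * d * x⁻¹)
            rw [h3] at this
            exact_mod_cast this
          rw [zpow_add, zpow_mul, this, one_zpow, one_mul, zpow_one] at h2
          exact h2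
      calc x * d = x * d * x⁻¹ * x := by group
        _ = d * x := by rw [h4]
    apply hratcase
    intro x
    have h1 := hC d hd x (hcomm x x.2)
    have h2 : res x * res x = 1 := by
      rcases h1 with h1 | h1
      · change res x = 1 at h1
        rw [h1, mul_one]
      · change res x = res d at h1
        rw [h1, ← map_mul, hdd, map_one]
    obtain ⟨q, hq⟩ := rat_invol (IsChar.heil hχ) h2
    obtain ⟨q', hq'⟩ := rat_invol (IsChar.heil hχ') h2
    exact ⟨q - q', by rw [hq, hq']; push_cast; ring⟩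

end

/-- **The main theorem** in the form of one prime at a time. -/
theorem main_prime (hm : m ≠ 0) (hR : TrivOne A) (hA : TrivSplit A m) (K L : Type) [Field K]
    [NumberField K] [Field L] [NumberField L] [Algebra K L] [IsGalois K L]
    {l : ℕ} (hl : l.Prime) (hlK : ¬ l ∣ Module.finrank K L) (hl2 : l = 2 → IsTotallyComplex K)
    {χ χ' : (L ≃ₐ[K] L) → ℂ} (hχ : IsChar χ) (hχ' : IsChar χ')
    (hrat : ∀ P : Ideal (𝓞 L), P.IsMaximal → Special K m P → ∀ g ∈ decomp K P,
      ∃ q : ℚ, χ g - χ' g = q) :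
    ∃ b : ℤ, ¬ (l : ℤ) ∣ b ∧ (A.val K L χ / A.val K L χ') ^ b = 1 := by
  classical
  obtain ⟨m₀, hm₀, hram⟩ := exists_ram K L
  have hm' : m * m₀ ≠ 0 := mul_ne_zero hm hm₀
  obtain ⟨N, i1, i2, i3, i4, i5, i6, hj, hC, hS⟩ := exists_both K L hm'
  have hfin : FiniteDimensional K N := Module.Finite.of_restrictScalars_finite ℚ K N
  let res : (N ≃ₐ[K] N) →* (L ≃ₐ[K] L) := AlgEquiv.restrictNormalHom L
  have hsp : ∀ P : Ideal (𝓞 L), Special K m P → ((m * m₀ : ℕ) : 𝓞 L) ∈ P := by
    intro P hP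
    rw [Nat.cast_mul]
    rcases hP with h | h
    · exact P.mul_mem_right _ h
    · exact P.mul_mem_left _ (hram P h)
  let f : (N ≃ₐ[K] N) → ℂ := fun g => χ (res g) - χ' (res g)
  have hconj : ∀ g x : N ≃ₐ[K] N, f (x * g * x⁻¹) = f g := by
    intro g x
    have hfinL : FiniteDimensional K L := Module.Finite.of_restrictScalars_finite ℚ K L
    change χ (res (x * g * x⁻¹)) - χ' (res (x * g * x⁻¹)) = χ (res g) - χ' (res g)
    rw [map_mul, map_mul, map_inv, (IsChar.heil hχ).conj, (IsChar.heil hχ').conj]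
  obtain ⟨n, hn, hn'⟩ := class_solP hl hconj
  have h1 : AddSubgroup.closure {u : (N ≃ₐ[K] N) → ℂ | ∃ U : Subgroup (N ≃ₐ[K] N), HypP l U ∧
      u = ind U (fun h => f h)} ≤ (TT A (K := K) (L := N) ⊥).comap
        (nsmulAddMonoidHom (Module.finrank K L)) := by
    rw [AddSubgroup.closure_le]
    rintro u ⟨U, hU, rfl⟩
    exact one_subgroup hR hA hsp hj hC hS hl hlK hl2 hχ hχ' hrat U hU
  have h2 := h1 hn'
  have h3 : Module.finrank K L • (n • f) ∈ TT A (K := K) (L := N) ⊥ := h2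
  have h4 : Val A K N f (A.val K L χ / A.val K L χ') := by
    refine ⟨fun g => χ (res g), fun g => χ' (res g), IsChar.comp hχ res, IsChar.comp hχ' res, rfl, ?_⟩
    rw [← A.val_infl K L N χ hχ, ← A.val_infl K L N χ' hχ']
  have h5 := Val.nsmul A (Val.zsmul A h4 n) (Module.finrank K L)
  obtain ⟨v, hv, h6⟩ := h3
  rw [Subgroup.mem_bot] at hv
  have h7 := h5.unique A h6
  rw [hv, ← zpow_natCast, ← zpow_mul] at h7
  refine ⟨n * (Module.finrank K L : ℤ), ?_, h7⟩
  intro h8
  rcases (Nat.prime_iff_prime_int.mp hl).dvd_or_dvd h8 with h9 | h9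
  · exact hn h9
  · exact hlK (by exact_mod_cast h9)

/-- **The main theorem.** -/
theorem main_order (hm : m ≠ 0) (hR : TrivOne A) (hA : TrivSplit A m) (K L : Type) [Field K]
    [NumberField K] [Field L] [NumberField L] [Algebra K L] [IsGalois K L]
    {χ χ' : (L ≃ₐ[K] L) → ℂ} (hχ : IsChar χ) (hχ' : IsChar χ')
    (hrat : ∀ P : Ideal (𝓞 L), P.IsMaximal → Special K m P → ∀ g ∈ decomp K P,
      ∃ q : ℚ, χ g - χ' g = q) :
    IsOfFinOrder (A.val K L χ / A.val K L χ') ∧
      ∀ p : ℕ, p.Prime → p ∣ orderOf (A.val K L χ / A.val K L χ') →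
        p ∣ Module.finrank K L ∨ (p = 2 ∧ ¬ IsTotallyComplex K) := by
  have key : ∀ p : ℕ, p.Prime → ¬ (p ∣ Module.finrank K L ∨ (p = 2 ∧ ¬ IsTotallyComplex K)) →
      ∃ b : ℤ, ¬ (p : ℤ) ∣ b ∧ (A.val K L χ / A.val K L χ') ^ b = 1 := by
    intro p hp h
    push Not at h
    exact main_prime hm hR hA K L hp h.1 h.2 hχ hχ' hrat
  refine ⟨?_, fun p hp hpd => ?_⟩
  · obtain ⟨p, hp1, hp⟩ := Nat.exists_infinite_primes (max 3 (Module.finrank K L + 1))
    have h1 : ¬ p ∣ Module.finrank K L := by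
      intro h
      have h2 := Nat.le_of_dvd Module.finrank_pos h
      have h3 := (le_max_right 3 (Module.finrank K L + 1)).trans hp1
      omega
    obtain ⟨b, hb, hb1⟩ := key p hp (by
      rintro (h | ⟨h, -⟩)
      · exact h1 h
      · have := (le_max_left 3 (Module.finrank K L + 1)).trans hp1
        omega)
    rw [isOfFinOrder_iff_zpow_eq_one]
    refine ⟨b, ?_, hb1⟩
    rintro rfl
    exact hb (dvd_zero _)
  · by_contra hcon
    obtain ⟨b, hb, hb1⟩ := key p hp hcon
    apply hb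
    exact (Int.natCast_dvd_natCast.mpr hpd).trans (orderOf_dvd_iff_zpow_eq_one.mpr hb1)

end Pool.Agent.K4H77.SL
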