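import Mathlib
import Pool.Agent.K4H77.SL.Main2

/-!
# Reduction of the hypothesis to faithful linear characters
-/

set_option autoImplicit false
set_option linter.unusedSectionVars false

namespace Pool.Agent.K4H77.SL

open NumberField NumberField.ComplexEmbedding Pool.Agent.R389 Pool.Agent.K4H74.ST
open scoped Pointwise

section sub

variable {K E L : Type} [Field K] [NumberField K] [Field E] [NumberField E] [Field L]
  [NumberField L] [Algebra K E] [Algebra E L] [Algebra K L] [IsScalarTower K E L] [IsGalois K L]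
  [IsGalois K E]

lemma unram_sub (h : ∀ P : Ideal (𝓞 L), P.IsMaximal → ∀ g ∈ inertia K P, g = 1) :
    ∀ P : Ideal (𝓞 E), P.IsMaximal → ∀ g ∈ inertia K P, g = 1 := by
  intro P hP g hg
  have iEL : IsGalois E L := IsGalois.tower_top_of_isGalois K E L
  have hfin : FiniteDimensional E L := Module.Finite.of_restrictScalars_finite ℚ E L
  obtain ⟨h0, Q, hh0, hQ, hQP, hhQ⟩ := lift_decomp (N := L) hP (inertia_sub P hg)
  have hlies : Q.LiesOver P := ⟨hQP.symm⟩
  have hQp : Q.IsPrime := hQ.isPrime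
  have hact : ∀ x : 𝓞 E, gi h0 (algebraMap (𝓞 E) (𝓞 L) x) = algebraMap (𝓞 E) (𝓞 L) (gi g x) := by
    intro x
    apply RingOfIntegers.ext
    change h0 (algebraMap E L (x : E)) = algebraMap E L (g (x : E))
    rw [← hh0]
    exact (res_apply h0 (x : E)).symm
  let e : 𝓞 L ≃+* 𝓞 L := RingOfIntegers.mapRingEquiv (h0 : L ≃+* L)
  have he : ∀ x, e x = gi h0 x := fun x => by
    apply RingOfIntegers.ext
    rfl
  have hQe : Q = Q.map (e : 𝓞 L →+* 𝓞 L) := by
    apply le_antisymm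
    · intro x hx
      have h1 : gi h0⁻¹ x ∈ Q := (decomp_inv hhQ x).mpr hx
      have h2 : e (gi h0⁻¹ x) = x := by
        rw [he, ← gi_mul, mul_inv_cancel, gi_one]
      rw [← h2]
      exact Ideal.mem_map_of_mem (e : 𝓞 L →+* 𝓞 L) h1
    · rw [Ideal.map_le_iff_le_comap]
      intro x hx
      rw [Ideal.mem_comap]
      change e x ∈ Q
      rw [he]
      exact (hhQ x).mpr hx
  let f : (𝓞 L ⧸ Q) ≃+* (𝓞 L ⧸ Q) := Ideal.quotientEquiv Q Q e hQe
  have hf : ∀ x : 𝓞 L, f (Ideal.Quotient.mk Q x) = Ideal.Quotient.mk Q (gi h0 x) := by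
    intro x
    rw [← he]
    rfl
  have hfa : ∀ y : 𝓞 E ⧸ P, f (algebraMap (𝓞 E ⧸ P) (𝓞 L ⧸ Q) y)
      = algebraMap (𝓞 E ⧸ P) (𝓞 L ⧸ Q) y := by
    intro y
    obtain ⟨x, rfl⟩ := Ideal.Quotient.mk_surjective y
    have h1 : algebraMap (𝓞 E ⧸ P) (𝓞 L ⧸ Q) (Ideal.Quotient.mk P x)
        = Ideal.Quotient.mk Q (algebraMap (𝓞 E) (𝓞 L) x) := rfl
    rw [h1, hf, hact]
    rw [Ideal.Quotient.eq, ← map_sub, ← Ideal.mem_comap, hQP]
    exact hg x
  let f' : (𝓞 L ⧸ Q) ≃ₐ[𝓞 E ⧸ P] (𝓞 L ⧸ Q) := AlgEquiv.ofRingEquiv (f := f) hfa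
  obtain ⟨τ, hτ⟩ := Ideal.Quotient.stabilizerHom_surjective (L ≃ₐ[E] L) P Q f'
  have hτ2 : ∀ x : 𝓞 L, gi h0 x - (τ.1 • x) ∈ Q := by
    intro x
    rw [← Ideal.Quotient.eq, ← hf]
    have h1 := AlgEquiv.congr_fun hτ (Ideal.Quotient.mk Q x)
    exact h1.symm
  have hτst : ∀ x : 𝓞 L, (τ.1⁻¹ • x) ∈ Q ↔ x ∈ Q := by
    intro x
    have h1 : τ.1 • Q = Q := τ.2
    rw [← Ideal.mem_pointwise_smul_iff_inv_smul_mem, h1]
  have hin : ((τ.1⁻¹ : L ≃ₐ[E] L).restrictScalars K * h0) ∈ inertia K Q := by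
    intro x
    have h1 : gi ((τ.1⁻¹ : L ≃ₐ[E] L).restrictScalars K * h0) x - x
        = τ.1⁻¹ • (gi h0 x - τ.1 • x) := by
      rw [smul_sub, inv_smul_smul, gi_mul]
      rfl
    rw [h1, hτst]
    exact hτ2 x
  have h1 := h Q hQ _ hin
  have h2 : h0 = (τ.1 : L ≃ₐ[E] L).restrictScalars K := by
    ext x
    have h3 := AlgEquiv.congr_fun h1 x
    change (τ.1⁻¹ : L ≃ₐ[E] L) (h0 x) = x at h3
    change h0 x = τ.1 x
    rw [← h3]
    have h4 : (τ.1 : L ≃ₐ[E] L) ((τ.1⁻¹ : L ≃ₐ[E] L) (h0 x)) = h0 x :=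
      AlgEquiv.congr_fun (mul_inv_cancel (τ.1 : L ≃ₐ[E] L)) (h0 x)
    rw [h3] at h4 ⊢
    exact h4.symm
  rw [← hh0, h2]
  ext x
  apply (algebraMap E L).injective
  rw [res_apply]
  change τ.1 (algebraMap E L x) = _
  rw [AlgEquiv.commutes]
  rfl

lemma split_sub {m : ℕ}
    (h : ∀ P : Ideal (𝓞 L), P.IsMaximal → (m : 𝓞 L) ∈ P → ∀ g ∈ decomp K P, g = 1) :
    ∀ P : Ideal (𝓞 E), P.IsMaximal → (m : 𝓞 E) ∈ P → ∀ g ∈ decomp K P, g = 1 := by
  intro P hP hm g hg
  have iEL : IsGalois E L := IsGalois.tower_top_of_isGalois K E L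
  obtain ⟨h0, Q, hh0, hQ, hQP, hhQ⟩ := lift_decomp (N := L) hP hg
  have h1 : (m : 𝓞 L) ∈ Q := by
    have h2 : algebraMap (𝓞 E) (𝓞 L) (m : 𝓞 E) ∈ Q := by
      rw [← Ideal.mem_comap, hQP]
      exact hm
    rwa [map_natCast] at h2
  rw [← hh0, h Q hQ h1 h0 hhQ, map_one]

end sub

/-- the invariant is trivial on the faithful linear characters of the everywhere unramified
extensions of totally complex fields in which the primes above `m` split completely -/
def TrivSplitLin {M : Type} [CommGroup M] (A : ArtinInvariant M) (m : ℕ) : Prop :=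
  ∀ (K L : Type) [Field K] [NumberField K] [Field L] [NumberField L] [Algebra K L] [IsGalois K L],
    IsTotallyComplex K →
    (∀ P : Ideal (𝓞 L), P.IsMaximal → ∀ g ∈ inertia K P, g = 1) →
    (∀ P : Ideal (𝓞 L), P.IsMaximal → (m : 𝓞 L) ∈ P → ∀ g ∈ decomp K P, g = 1) →
    ∀ ψ : (L ≃ₐ[K] L) →* ℂˣ, Function.Injective ψ → A.val K L (lc ψ) = 1

theorem trivSplit_of_lin {M : Type} [CommGroup M] {A : ArtinInvariant M} {m : ℕ}
    (hA : TrivSplitLin A m) : TrivSplit A m := by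
  intro K L _ _ _ _ _ _ hK hcyc hin hde χ hχ
  have hfinL : FiniteDimensional K L := Module.Finite.of_restrictScalars_finite ℚ K L
  have key : A.val K L χ ∈ (⊥ : Subgroup M) := by
    refine brauer_red ⊥ (fun U ψ => ?_) hχ
    rw [Subgroup.mem_bot]
    let F := IntermediateField.fixedField U
    obtain ⟨E, i1, i2, i3, i4, i5, i6, θ, hθ, hψ⟩ := lin_red F L ψ
    have h1 : ψ = θ.comp (AlgEquiv.restrictNormalHom E) := by
      ext g
      rw [← hψ]
      rfl
    have hF : IsTotallyComplex F := by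
      have h3 : ∀ v : InfinitePlace F, v.IsComplex := by
        intro v
        rw [← InfinitePlace.not_isReal_iff_isComplex]
        intro hv
        have h4 : (v.comap (algebraMap K F)).IsReal := InfinitePlace.IsReal.comap _ hv
        exact InfinitePlace.not_isReal_iff_isComplex.mpr (hK.isComplex _) h4
      exact ⟨h3⟩
    have hinF : ∀ P : Ideal (𝓞 L), P.IsMaximal → ∀ g ∈ inertia F P, g = 1 := by
      intro P hP g hg
      have h3 : g.restrictScalars K ∈ inertia K P := by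
        intro x
        exact hg x
      have h4 := hin P hP _ h3
      ext x
      exact AlgEquiv.congr_fun h4 x
    have hdeF : ∀ P : Ideal (𝓞 L), P.IsMaximal → (m : 𝓞 L) ∈ P → ∀ g ∈ decomp F P, g = 1 := by
      intro P hP hm g hg
      have h3 : g.restrictScalars K ∈ decomp K P := by
        intro x
        exact hg x
      have h4 := hde P hP hm _ h3
      ext x
      exact AlgEquiv.congr_fun h4 x
    have hfin : FiniteDimensional F E := Module.Finite.of_restrictScalars_finite ℚ F E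
    rw [h1, val_lin_res]
    exact hA F E hF (unram_sub hinF) (split_sub hdeF) θ hθ
  exact (Subgroup.mem_bot.mp key)

end Pool.Agent.K4H77.SL
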