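import Mathlib
import Pool.Agent.K4H74.SC.Lead
import Pool.Agent.K4H74.SC.Wrap

/-!
# The defect of Stark's conjecture, and the image of an inductive invariant under a homomorphism

`S` is the set of the infinite places; the definitions are in `Pool.Agent.K4H74.SC.Core`.
-/

set_option autoImplicit false
set_option linter.unusedSectionVars false

namespace Pool.Agent.K4H74.SK

open NumberField

/-- `d` is the defect of Stark's conjecture for the character `χ` and the automorphism `σ` of `ℂ`: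
`A(χ, φ)^σ = d A(χ^σ, φ)` for all `φ`. -/
def IsDefect (c : Pair → ℂ) (σ : ℂ ≃+* ℂ) {E : Ext} (χ : G E → ℂ) (d : ℂˣ) : Prop :=
  ∀ Λ : Y E →ₗ[ℂ] Y E, IsStarkMap Λ → ∀ a a' : ℂ, IsA c Λ χ a → IsA c Λ (fun g => σ (χ g)) a' →
    σ a = d * a'

/-- Stark's conjecture says that the defect is `1`. -/
lemma isDefect_one_iff {c : Pair → ℂ} {σ : ℂ ≃+* ℂ} {E : Ext} {χ : G E → ℂ} :
    IsDefect c σ χ 1 ↔ Stark c σ χ := by
  unfold IsDefect Stark
  simp only [Units.val_one, one_mul]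

/-- the defect is the value of the inductive invariant -/
lemma isDefect_iff {c : Pair → ℂ} (hc : IsLeading c) (σ : ℂ ≃+* ℂ) {E : Ext} {χ : G E → ℂ}
    (hχ : IsChr χ) {d : ℂˣ} : IsDefect c σ χ d ↔ (inv hc σ).val E.K E.L χ = d := by
  have hG : Finite (G E) := inferInstanceAs (Finite (E.L ≃ₐ[E.K] E.L))
  have h' := isChr_iff.mp hχ
  have hσ := SC.isChar_sigma h' σ.toRingHom
  constructor
  · intro h
    apply SC.sval_eq h'
    intro φ a a' ha ha'
    obtain ⟨Λ, hΛ, hφ⟩ := exists_new φ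
    exact h Λ hΛ a a' (isA_new hc hφ h' ha) (isA_new hc hφ hσ ha')
  · rintro rfl Λ hΛ a a' ha ha'
    obtain ⟨φ, hφ⟩ := exists_old hΛ
    exact SC.sval_spec (c := leadInv hc) σ h' φ a a' (isA_old hc hφ h' ha)
      (isA_old hc hφ hσ ha')

/-- every character has exactly one defect -/
lemma existsUnique_defect {c : Pair → ℂ} (hc : IsLeading c) (σ : ℂ ≃+* ℂ) {E : Ext} {χ : G E → ℂ}
    (hχ : IsChr χ) : ∃! d : ℂˣ, IsDefect c σ χ d :=
  ⟨(inv hc σ).val E.K E.L χ, (isDefect_iff hc σ hχ).mpr rfl,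
    fun _ h => ((isDefect_iff hc σ hχ).mp h).symm⟩

/-- the image of an inductive invariant under a homomorphism -/
def mapInv {M M' : Type} [CommGroup M] [CommGroup M'] (f : M →* M') (A : ST.ArtinInvariant M) :
    ST.ArtinInvariant M' where
  val K L _ _ _ _ _ _ χ := f (A.val K L χ)
  val_add K L _ _ _ _ _ _ χ χ' h h' := by rw [A.val_add K L χ χ' h h', map_mul]
  val_infl K L N _ _ _ _ _ _ _ _ _ _ _ _ χ h := by rw [A.val_infl K L N χ h]
  val_ind K F L _ _ _ _ _ _ _ _ _ _ _ _ χ h := by rw [A.val_ind K F L χ h]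

/-- Stark's invariant modulo the subgroup generated by a set of numbers -/
noncomputable abbrev invMod {c : Pair → ℂ} (hc : IsLeading c) (σ : ℂ ≃+* ℂ) (T : Set ℂˣ) :
    ST.ArtinInvariant (ℂˣ ⧸ Subgroup.closure T) :=
  mapInv (QuotientGroup.mk' (Subgroup.closure T)) (inv hc σ)

lemma invMod_eq_one {c : Pair → ℂ} (hc : IsLeading c) (σ : ℂ ≃+* ℂ) (T : Set ℂˣ) {E : Ext}
    {χ : G E → ℂ} (hχ : IsChr χ) {d : ℂˣ} (hd : IsDefect c σ χ d) :
    (invMod hc σ T).val E.K E.L χ = 1 ↔ d ∈ Subgroup.closure T := by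
  have h1 : (invMod hc σ T).val E.K E.L χ = QuotientGroup.mk' (Subgroup.closure T) d := by
    change QuotientGroup.mk' (Subgroup.closure T) ((inv hc σ).val E.K E.L χ) = _
    rw [(isDefect_iff hc σ hχ).mp hd]
  rw [h1]
  exact QuotientGroup.eq_one_iff d

/-- the invariant modulo `T` is trivial on the characters whose defects are in `T` -/
lemma invMod_one {c : Pair → ℂ} (hc : IsLeading c) (σ : ℂ ≃+* ℂ) (T : Set ℂˣ) {E : Ext}
    {χ : G E → ℂ} (hχ : IsChr χ) (h : ∀ d, IsDefect c σ χ d → d ∈ T) :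
    (invMod hc σ T).val E.K E.L χ = 1 := by
  obtain ⟨d, hd, -⟩ := existsUnique_defect hc σ hχ
  exact (invMod_eq_one hc σ T hχ hd).mpr (Subgroup.subset_closure (h d hd))

end Pool.Agent.K4H74.SK
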